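import Pool.Agent.Work.MP_408f4b_gt.Q.Base

set_option autoImplicit false

/-!
# The real numbers, the complex numbers, the quaternions
-/

namespace Pool.Agent.Work.MP_408f4b_gt.Q

open Quaternion

instance isDA_real : IsDA ℝ where
  norm_mul' := norm_mul
  star_add_star a b := by
    simp only [star_trivial, smul_eq_mul, mul_one]
    have h : (inner ℝ a b : ℝ) = b * a := by simp [inner]
    rw [h]; ring
  smul_mul' r a b := by simp only [smul_eq_mul]; ring
  mul_smul' r a b := by simp only [smul_eq_mul]; ring
  norm_one' := norm_one
  finite := inferInstance

instance isDA_complex : IsDA ℂ where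
  norm_mul' := norm_mul
  star_add_star a b := by
    have h : (inner ℝ a b : ℝ) = a.re * b.re + a.im * b.im := by
      rw [Complex.inner]; simp; ring
    rw [h]
    apply Complex.ext
    · simp; ring
    · simp; ring
  smul_mul' r a b := smul_mul_assoc r a b
  mul_smul' r a b := mul_smul_comm r a b
  norm_one' := norm_one
  finite := inferInstance

instance isDA_quaternion : IsDA ℍ[ℝ] where
  norm_mul' := norm_mul
  star_add_star a b := by
    rw [Quaternion.inner_def]
    apply Quaternion.ext
    · simp; ring
    · simp; ring
    · simp; ring
    · simp; ring
  smul_mul' r a b := smul_mul_assoc r a b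
  mul_smul' r a b := mul_smul_comm r a b
  norm_one' := norm_one
  finite := inferInstance

end Pool.Agent.Work.MP_408f4b_gt.Q
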