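import Pool.Agent.Work.MP_408f4b_gt.Q.Stmts2
import Pool.Agent.Work.MP_408f4b_gt.Q.Inst

set_option autoImplicit false

/-!
# Statements of the items, continued: the spaces of matrices
-/

namespace Pool.Agent.Work.MP_408f4b_gt.Q

open MeasureTheory Set Filter Topology

/-! ## Part 7: the spaces of matrices -/

/-- Right multiplication by a scalar. -/
def rmul {F : Type} [NormedRing F] {k : ℕ} (u : F) (v : Vec F k) : Vec F k :=
  WithLp.toLp 2 fun i : Fin k => v i * u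

/-- Arithmetic of `F`. -/
def clIn : Prop := ∀ (F : Type) [NormedRing F] [InnerProductSpace ℝ F] [StarRing F] [IsDA F],
  (∀ a b c : F, inner ℝ (a * b) (a * c) = ‖a‖ ^ 2 * inner ℝ b c ∧
    inner ℝ (b * a) (c * a) = ‖a‖ ^ 2 * inner ℝ b c ∧
    inner ℝ (a * b) c = inner ℝ b (star a * c) ∧ inner ℝ (b * a) c = inner ℝ b (c * star a)) ∧
  (∀ a b : F, inner ℝ (star a) (star b) = inner ℝ a b) ∧ (∀ a : F, ‖star a‖ = ‖a‖) ∧
  (∀ (r : ℝ) (a : F), star (r • a) = r • star a) ∧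
  (∀ a : F, a * star a = (‖a‖ ^ 2) • (1 : F) ∧ star a * a = (‖a‖ ^ 2) • (1 : F)) ∧
  (∀ a : F, inner ℝ a 1 = 0 → ‖a‖ = 1 → a * a = -1 ∧ star a = -a) ∧
  ∀ a : F, a ≠ 0 → ∃ b : F, a * b = 1 ∧ b * a = 1 ∧ b = (‖a‖ ^ 2)⁻¹ • star a

/-- An orthonormal basis which begins with `1`. -/
def clBas : Prop := ∀ (F : Type) [NormedRing F] [InnerProductSpace ℝ F] [StarRing F] [IsDA F],
  ∃ e : ℕ, e + 1 = Module.finrank ℝ F ∧ ∃ u : OrthonormalBasis (Fin (e + 1)) ℝ F, u 0 = 1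

/-- The action. -/
def clAct : Prop := ∀ (F : Type) [NormedRing F] [InnerProductSpace ℝ F] [StarRing F] [IsDA F]
  (k : ℕ),
  (∀ (A : Un F k) (v w : Vec F k), act A (v + w) = act A v + act A w) ∧
  (∀ (A : Un F k) (c : ℝ) (v : Vec F k), act A (c • v) = c • act A v) ∧
  (∀ (A : Un F k) (v : Vec F k), ‖act A v‖ = ‖v‖) ∧
  (∀ (A B : Un F k) (v : Vec F k), act (A * B) v = act A (act B v)) ∧
  (∀ (A : Un F k) (v : Vec F k) (u : F), act A (rmul u v) = rmul u (act A v)) ∧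
  Continuous (fun z : Un F k × Vec F k => act z.1 z.2) ∧
  (∀ u : F, ‖u‖ = 1 → ∀ v : Vec F k, ‖rmul u v‖ = ‖v‖) ∧
  (∀ (u : F) (v w : Vec F k) (c : ℝ), rmul u (v + w) = rmul u v + rmul u w ∧
    rmul u (c • v) = c • rmul u v) ∧
  (∀ u : F, inner ℝ u 1 = 0 → ‖u‖ = 1 → ∀ v : Vec F k, rmul u (rmul u v) = -v) ∧
  (∀ u u' : F, inner ℝ u u' = 0 → ∀ v : Vec F k, inner ℝ (rmul u v) (rmul u' v) = 0) ∧
  (∀ v w : Vec F k, (∀ u : F, inner ℝ v (rmul u w) = 0) ↔ ∑ i, star (w i) * v i = 0) ∧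
  (∀ v w : Vec F k, (∀ u : F, inner ℝ v (rmul u w) = 0) →
    ∀ u u' : F, inner ℝ (rmul u v) (rmul u' w) = 0)

/-- The action is transitive on the orthonormal pairs. -/
def clTrans : Prop := ∀ (F : Type) [NormedRing F] [InnerProductSpace ℝ F] [StarRing F] [IsDA F]
  (k : ℕ) (x y : Vec F k), ‖x‖ = 1 → ‖y‖ = 1 →
  ∃ A : Un F k, act A x = y ∧ ∀ z : Vec F k, ∑ i, star (x i) * z i = 0 →
    ∑ i, star (y i) * z i = 0 → act A z = z

/-- Haar measure. -/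
def clHaar : Prop := ∀ (F : Type) [NormedRing F] [InnerProductSpace ℝ F] [StarRing F]
  [CompleteSpace F] [IsDA F] (k : ℕ), IsProbabilityMeasure (hm F k) ∧
  ∀ (B : Un F k) (φ : Un F k → ℝ), Continuous φ → ∫ A, φ (A * B) ∂hm F k = ∫ A, φ A ∂hm F k

/-- The frames of `F^k`. -/
def clFrm : Prop := ∀ (F : Type) [NormedRing F] [InnerProductSpace ℝ F] [StarRing F]
  [CompleteSpace F] [IsDA F] (k e : ℕ) (u : OrthonormalBasis (Fin (e + 1)) ℝ F), u 0 = 1 → 2 ≤ k →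
  ∃ Ψ : Frm (Vec F k) (k * (e + 1)) e, (∀ q v, Ψ.J q v = rmul (u q) v) ∧
    ∀ f : Vec F k → Vec F k → ℝ, Continuous (fun z : Vec F k × Vec F k => f z.1 z.2) →
      ∫ A : Un F k, f (act A (bv F k 0)) (act A (bv F k 1)) ∂hm F k = Ψ.av f

/-- The tensor. -/
def clTns : Prop := ∀ (F : Type) [NormedRing F] [InnerProductSpace ℝ F] [StarRing F]
  [CompleteSpace F] [IsDA F] (k e : ℕ) (u : OrthonormalBasis (Fin (e + 1)) ℝ F), u 0 = 1 →
  ∀ (Φ : Frm (Vec F 2) (2 * (e + 1)) e) (Ψ : Frm (Vec F k) (k * (e + 1)) e),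
  (∀ q v, Φ.J q v = rmul (u q) v) → (∀ q v, Ψ.J q v = rmul (u q) v) →
  ∃ T : Tns Φ Ψ (Mt F k), ∀ r v, T.B r v = ten r v

/-- The theorem for one algebra. -/
def clStek : Prop := ∀ (F : Type) [NormedRing F] [InnerProductSpace ℝ F] [StarRing F]
  [CompleteSpace F] [IsDA F] (k : ℕ), SteklovOne F k

end Pool.Agent.Work.MP_408f4b_gt.Q
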