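import Mathlib

set_option autoImplicit false

/-!
# Hypersurfaces of the space of the `2 × k` matrices over `ℝ`, `ℂ`, `ℍ`, invariant under
`U(2) × U(k)`: definitions
-/

namespace Pool.Agent.Work.MP_408f4b_gt.Q

open MeasureTheory Set

/-- `F` is a finite dimensional real algebra with an involution and a multiplicative Euclidean
norm: the real numbers, the complex numbers or the quaternions. -/
class IsDA (F : Type) [NormedRing F] [InnerProductSpace ℝ F] [StarRing F] : Prop where
  norm_mul' : ∀ a b : F, ‖a * b‖ = ‖a‖ * ‖b‖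
  star_add_star : ∀ a b : F, star a * b + star b * a = (2 * inner ℝ a b) • (1 : F)
  smul_mul' : ∀ (r : ℝ) (a b : F), (r • a) * b = r • (a * b)
  mul_smul' : ∀ (r : ℝ) (a b : F), a * (r • b) = r • (a * b)
  norm_one' : ‖(1 : F)‖ = 1
  finite : FiniteDimensional ℝ F

section basic

variable (F : Type) [NormedRing F] [InnerProductSpace ℝ F] [StarRing F] [IsDA F]

instance isDA_finite : FiniteDimensional ℝ F := IsDA.finite

theorem star_eq (a : F) : star a = (2 * inner ℝ a 1) • (1 : F) - a := by
  have h := IsDA.star_add_star a (1 : F)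
  simp only [mul_one, star_one, one_mul] at h
  rw [← h, add_sub_cancel_right]

instance isDA_contStar : ContinuousStar F := by
  refine ⟨?_⟩
  have h : (star : F → F) = fun a => (2 * inner ℝ a 1) • (1 : F) - a := funext (star_eq F)
  rw [h]
  fun_prop

theorem star_mul_self' (a : F) : star a * a = (‖a‖ ^ 2) • (1 : F) := by
  have h := IsDA.star_add_star a a
  have h2 : (2 : ℝ) • (star a * a) = (2 : ℝ) • ((‖a‖ ^ 2) • (1 : F)) := by
    rw [two_smul, h, real_inner_self_eq_norm_sq, smul_smul]
  exact smul_right_injective F (two_ne_zero' ℝ) h2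

end basic

/-- The unitary group `U(k)` over `F`: `O(k)`, `U(k)` or `Sp(k)`. -/
def Un (F : Type) [NormedRing F] [StarRing F] (k : ℕ) : Type :=
  ↥(unitary (Matrix (Fin k) (Fin k) F))

section group

variable (F : Type) [NormedRing F] [InnerProductSpace ℝ F] [StarRing F] [IsDA F] (k : ℕ)

noncomputable instance : Group (Un F k) :=
  inferInstanceAs (Group ↥(unitary (Matrix (Fin k) (Fin k) F)))

instance : TopologicalSpace (Un F k) :=
  inferInstanceAs (TopologicalSpace ↥(unitary (Matrix (Fin k) (Fin k) F)))

instance : IsTopologicalGroup (Un F k) :=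
  inferInstanceAs (IsTopologicalGroup ↥(unitary (Matrix (Fin k) (Fin k) F)))

instance : T2Space (Un F k) :=
  inferInstanceAs (T2Space ↥(unitary (Matrix (Fin k) (Fin k) F)))

instance : MeasurableSpace (Un F k) := borel _

instance : BorelSpace (Un F k) := ⟨rfl⟩

theorem entry_le {A : Matrix (Fin k) (Fin k) F} (hA : A ∈ unitary (Matrix (Fin k) (Fin k) F))
    (i j : Fin k) : ‖A i j‖ ≤ 1 := by
  have h1 := (Unitary.mem_iff.1 hA).1
  have h2 := congrFun (congrFun h1 j) j
  rw [Matrix.mul_apply, Matrix.one_apply_eq] at h2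
  have h3 : ∀ l, (star A) j l * A l j = (‖A l j‖ ^ 2) • (1 : F) := by
    intro l
    rw [Matrix.star_apply]
    exact star_mul_self' F (A l j)
  simp only [h3] at h2
  rw [← Finset.sum_smul] at h2
  have h4 : ‖(∑ l, ‖A l j‖ ^ 2) • (1 : F)‖ = 1 := by rw [h2]; exact IsDA.norm_one'
  rw [norm_smul, IsDA.norm_one', mul_one, Real.norm_eq_abs,
    abs_of_nonneg (Finset.sum_nonneg fun l _ => sq_nonneg _)] at h4
  have h5 : ‖A i j‖ ^ 2 ≤ 1 := by
    rw [← h4]
    exact Finset.single_le_sum (f := fun l => ‖A l j‖ ^ 2) (fun l _ => sq_nonneg _)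
      (Finset.mem_univ i)
  nlinarith [norm_nonneg (A i j)]

instance : CompactSpace (Un F k) := by
  have hp : ProperSpace F := FiniteDimensional.proper ℝ F
  have hK : IsCompact (Set.pi Set.univ (fun _ : Fin k => Set.pi Set.univ
      (fun _ : Fin k => Metric.closedBall (0 : F) 1)) : Set (Fin k → Fin k → F)) :=
    isCompact_univ_pi fun _ => isCompact_univ_pi fun _ => isCompact_closedBall 0 1
  have hc : IsCompact (unitary (Matrix (Fin k) (Fin k) F) : Set (Matrix (Fin k) (Fin k) F)) := by
    have hcl : IsClosed (unitary (Matrix (Fin k) (Fin k) F) : Set (Matrix (Fin k) (Fin k) F)) :=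
      isClosed_unitary
    refine hK.of_isClosed_subset hcl ?_
    intro A hA i _ j _
    rw [mem_closedBall_zero_iff]
    exact entry_le F k hA i j
  exact isCompact_iff_compactSpace.1 hc

instance : SecondCountableTopology (Un F k) := by
  have h1 : ProperSpace F := FiniteDimensional.proper ℝ F
  have h2 : SecondCountableTopology F := secondCountable_of_proper
  have h3 : SecondCountableTopology (Matrix (Fin k) (Fin k) F) :=
    inferInstanceAs (SecondCountableTopology (Fin k → Fin k → F))
  exact TopologicalSpace.Subtype.secondCountableTopology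
    (unitary (Matrix (Fin k) (Fin k) F) : Set (Matrix (Fin k) (Fin k) F))

/-- The Haar probability measure of `U(k)`. -/
noncomputable def hm : Measure (Un F k) :=
  Measure.haarMeasure (⊤ : TopologicalSpace.PositiveCompacts (Un F k))

end group

/-- The space `F^k` with its Euclidean norm. -/
abbrev Vec (F : Type) (k : ℕ) : Type := PiLp 2 (fun _ : Fin k => F)

/-- The space of the `2 × k` matrices over `F` with its Euclidean norm. -/
abbrev Mt (F : Type) (k : ℕ) : Type := PiLp 2 (fun _ : Fin 2 × Fin k => F)

/-- The vectors of the standard basis. -/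
def bv (F : Type) [NormedRing F] (k j : ℕ) : Vec F k :=
  WithLp.toLp 2 fun i : Fin k => if (i : ℕ) = j then 1 else 0

/-- The action of `U(k)` on `F^k`. -/
def act {F : Type} [NormedRing F] [StarRing F] {k : ℕ} (A : Un F k) (v : Vec F k) : Vec F k :=
  WithLp.toLp 2 fun i : Fin k => ∑ j : Fin k, A.1 i j * v j

/-- The matrix `r v*`. -/
def ten {F : Type} [NormedRing F] [StarRing F] {k : ℕ} (r : Vec F 2) (v : Vec F k) : Mt F k :=
  WithLp.toLp 2 fun ij : Fin 2 × Fin k => r ij.1 * star (v ij.2)

/-- The profile curve `s ↦ (x s, y s)`, `0 ≤ s ≤ L`, of a compact connected embedded free boundary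
minimal hypersurface of the unit ball of the space of the `2 × k` matrices invariant under
`U(2) × U(k)`: the hypersurface is the set of the matrices with singular values `x s ≥ y s`.
The volume of the orbit of the matrices with singular values `x`, `y` is a constant multiple of
`(x y)^a (x² - y²)^b`. -/
structure Profile (a b : ℕ) where
  /-- the length of the curve -/
  L : ℝ
  /-- the larger singular value -/
  x : ℝ → ℝ
  /-- the smaller singular value -/
  y : ℝ → ℝ
  L_pos : 0 < L
  x_C2 : ContDiff ℝ 2 x
  y_C2 : ContDiff ℝ 2 y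
  /-- parametrisation by arclength -/
  arclength : ∀ s ∈ Icc 0 L, deriv x s ^ 2 + deriv y s ^ 2 = 1
  /-- the curve is simple: the hypersurface is embedded -/
  injOn : InjOn (fun s => (x s, y s)) (Icc 0 L)
  /-- away from its ends the curve is in the open Weyl chamber and in the open unit disc -/
  interior : ∀ s ∈ Ioo 0 L, 0 < y s ∧ y s < x s ∧ x s ^ 2 + y s ^ 2 < 1
  /-- the mean curvature of the hypersurface vanishes -/
  minimal : ∀ s ∈ Ioo 0 L, deriv x s * deriv (deriv y) s - deriv y s * deriv (deriv x) s =
    a * (deriv x s / y s - deriv y s / x s)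
      - 2 * b * (deriv x s * y s + deriv y s * x s) / (x s ^ 2 - y s ^ 2)
  /-- the last point of the curve is on the unit circle, and the curve is orthogonal to it -/
  final : 0 < y L ∧ y L < x L ∧ x L ^ 2 + y L ^ 2 = 1 ∧ deriv x L = x L ∧ deriv y L = y L
  /-- the first point of the curve is on the unit circle, and the curve is orthogonal to it
  (then the boundary of the hypersurface has two components), or it is on one of the walls of the
  Weyl chamber, and the curve is orthogonal to this wall (then there is one component) -/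
  initial : (0 < y 0 ∧ y 0 < x 0 ∧ x 0 ^ 2 + y 0 ^ 2 = 1 ∧ deriv x 0 = -x 0 ∧ deriv y 0 = -y 0) ∨
    (0 < x 0 ∧ y 0 = 0 ∧ deriv x 0 = 0) ∨ (0 < x 0 ∧ y 0 = x 0 ∧ deriv y 0 = -deriv x 0)

section energy

variable (F : Type) [NormedRing F] [InnerProductSpace ℝ F] [StarRing F] [CompleteSpace F] [IsDA F]
  (k : ℕ)

/-- The average over the pairs `(R, A)` in `U(2) × U(k)` of a function of the first two columns of
`R` and of `A`. -/
noncomputable def avg (f : Vec F 2 → Vec F 2 → Vec F k → Vec F k → ℝ) : ℝ :=
  ∫ R : Un F 2, ∫ A : Un F k, f (act R (bv F 2 0)) (act R (bv F 2 1)) (act A (bv F k 0))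
    (act A (bv F k 1)) ∂hm F k ∂hm F 2

namespace Profile

variable {F k} {a b : ℕ} (P : Profile a b)

/-- The point of the hypersurface. -/
noncomputable def pt (s : ℝ) (r r' : Vec F 2) (v v' : Vec F k) : Mt F k :=
  P.x s • ten r v + P.y s • ten r' v'

/-- The unit normal at the point `pt s r r' v v'`. -/
noncomputable def nu (s : ℝ) (r r' : Vec F 2) (v v' : Vec F k) : Mt F k :=
  (-deriv P.y s) • ten r v + deriv P.x s • ten r' v'

/-- The density of the area of the hypersurface. -/
noncomputable def w (s : ℝ) : ℝ := (P.x s * P.y s) ^ a * (P.x s ^ 2 - P.y s ^ 2) ^ b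

/-- The square `‖∇f‖² - ⟨∇f, ν⟩²` of the norm of the tangential gradient of `f`. -/
noncomputable def gradSq (f : Mt F k → ℝ) (s : ℝ) (r r' : Vec F 2) (v v' : Vec F k) : ℝ :=
  ‖gradient f (P.pt s r r' v v')‖ ^ 2
    - (inner ℝ (gradient f (P.pt s r r' v v')) (P.nu s r r' v v')) ^ 2

/-- The Dirichlet energy of `f` on the hypersurface. -/
noncomputable def energy (f : Mt F k → ℝ) : ℝ :=
  ∫ s in (0 : ℝ)..P.L, avg F k (P.gradSq f s) * P.w s

/-- The integral of `f` over the boundary of the hypersurface (if the first point of the profile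
curve is on a wall, then `w 0 = 0` and there is only one boundary component). -/
noncomputable def bdry (f : Mt F k → ℝ) : ℝ :=
  avg F k (fun r r' v v' => f (P.pt P.L r r' v v')) * P.w P.L
    + avg F k (fun r r' v v' => f (P.pt 0 r r' v v')) * P.w 0

variable (F k)

/-- The set of the Rayleigh quotients of the Steklov problem: its infimum is the first nonzero
Steklov eigenvalue. -/
def rayleigh : Set ℝ :=
  {R | ∃ f : Mt F k → ℝ, ContDiff ℝ 1 f ∧ P.bdry f = 0 ∧ P.bdry (fun X => f X ^ 2) ≠ 0 ∧
    R = P.energy f / P.bdry (fun X => f X ^ 2)}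

end Profile

/-- The first nonzero Steklov eigenvalue is one for all embedded invariant free boundary minimal
hypersurfaces of the unit ball of the space of the `2 × k` matrices. -/
def SteklovOne : Prop :=
  2 ≤ k → 2 ≤ Module.finrank ℝ F * (k - 1) →
    ∀ P : Profile (Module.finrank ℝ F * (k - 1) - 1) (Module.finrank ℝ F),
      IsLeast (P.rayleigh F k) 1

end energy

end Pool.Agent.Work.MP_408f4b_gt.Q
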