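import Pool.Agent.Work.MP_408f4b_gt.Stmts
import Pool.Agent.Work.MP_408f4b_gt.Q.Base

set_option autoImplicit false

/-!
# Abstract frames

`V` is a real Euclidean space of dimension `n` with an orthonormal system of right
multiplications `J q`, `q ∈ Fin (e + 1)`, `J 0 = 1` (`e + 1 = 1, 2, 4` is the real dimension of the
division algebra), and a compact group acting by isometries which commute with the `J q` and
transitively on the orthonormal pairs.
-/

namespace Pool.Agent.Work.MP_408f4b_gt.Q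

open MeasureTheory Set Filter Topology

/-- Frames in `V`. -/
structure Frm (V : Type) [NormedAddCommGroup V] [InnerProductSpace ℝ V] (n e : ℕ) where
  /-- right multiplication by the units of an orthonormal basis of the division algebra -/
  J : Fin (e + 1) → V →ₗᵢ[ℝ] V
  /-- the group -/
  G : Type
  top : TopologicalSpace G
  cpt : CompactSpace G
  scd : SecondCountableTopology G
  ms : MeasurableSpace G
  bor : BorelSpace G
  /-- an invariant probability measure -/
  μ : Measure G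
  prob : IsProbabilityMeasure μ
  /-- the action of the group -/
  A : G → V →ₗᵢ[ℝ] V
  /-- a base pair -/
  a : V
  b : V
  /-- an identification of `V` with the standard Euclidean space -/
  L : E n ≃ₗᵢ[ℝ] V
  /-- an isometry onto the space orthogonal to all `J q a` -/
  ι : E (n - (e + 1)) →ₗᵢ[ℝ] V
  cont : Continuous fun z : G × V => A z.1 z.2
  le : 2 * (e + 1) ≤ n
  J0 : ∀ v, J 0 v = v
  Jsq : ∀ q, q ≠ 0 → ∀ v, J q (J q v) = -v
  Jorth : ∀ (v : V) (p q : Fin (e + 1)), p ≠ q → inner ℝ (J p v) (J q v) = 0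
  orthC : ∀ v w : V, (∀ q, inner ℝ v (J q w) = 0) → ∀ p q, inner ℝ (J p v) (J q w) = 0
  comm : ∀ g q v, A g (J q v) = J q (A g v)
  ha : ‖a‖ = 1
  hb : ‖b‖ = 1
  hab : ∀ q, inner ℝ a (J q b) = 0
  hι : ∀ u q, inner ℝ (J q a) (ι u) = 0
  inv : ∀ v w : V, ‖v‖ = 1 → ‖w‖ = 1 → (∀ q, inner ℝ v (J q w) = 0) →
    ∀ F : V → V → ℝ, Continuous (fun z : V × V => F z.1 z.2) →
      ∫ g, F (A g v) (A g w) ∂μ = ∫ g, F (A g a) (A g b) ∂μ

attribute [instance] Frm.top Frm.cpt Frm.scd Frm.ms Frm.bor Frm.prob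

section one

variable {V : Type} [NormedAddCommGroup V] [InnerProductSpace ℝ V] [CompleteSpace V] {n e : ℕ}
  (Φ : Frm V n e)

/-- Orthonormal pairs (over the division algebra). -/
def Frm.Pair (v w : V) : Prop := ‖v‖ = 1 ∧ ‖w‖ = 1 ∧ ∀ q, inner ℝ v (Φ.J q w) = 0

/-- The adjoint of `J q`. -/
noncomputable def Frm.Js (q : Fin (e + 1)) (v : V) : V := if q = 0 then v else -Φ.J q v

/-- The average of a function of the orthonormal pairs. -/
noncomputable def Frm.av (F : V → V → ℝ) : ℝ := ∫ g, F (Φ.A g Φ.a) (Φ.A g Φ.b) ∂Φ.μ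

/-- Partial gradients. -/
noncomputable def gr1 (g : V → V → ℝ) (v w : V) : V := gradient (fun v' => g v' w) v

noncomputable def gr2 (g : V → V → ℝ) (v w : V) : V := gradient (fun w' => g v w') w

/-- The square of the gradient with respect to the first vector of the pair, on the sphere of the
vectors orthogonal to the second one. -/
noncomputable def Frm.n1 (g : V → V → ℝ) (v w : V) : ℝ :=
  ‖gr1 g v w‖ ^ 2 - (inner ℝ (gr1 g v w) v) ^ 2 - ∑ q, (inner ℝ (gr1 g v w) (Φ.J q w)) ^ 2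

/-- The same for the second vector. -/
noncomputable def Frm.n2 (g : V → V → ℝ) (v w : V) : ℝ :=
  ‖gr2 g v w‖ ^ 2 - (inner ℝ (gr2 g v w) w) ^ 2 - ∑ q, (inner ℝ (gr2 g v w) (Φ.J q v)) ^ 2

/-- The derivative with respect to the rotation `q` of the pair. -/
noncomputable def Frm.om (q : Fin (e + 1)) (g : V → V → ℝ) (v w : V) : ℝ :=
  inner ℝ (gr1 g v w) (Φ.J q w) - inner ℝ (gr2 g v w) (Φ.Js q v)

/-- The first vector of the rotated pair. -/
noncomputable def Frm.rt1 (q : Fin (e + 1)) (t : ℝ) (v w : V) : V :=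
  Real.cos t • v + Real.sin t • Φ.J q w

/-- The second vector of the rotated pair. -/
noncomputable def Frm.rt2 (q : Fin (e + 1)) (t : ℝ) (v w : V) : V :=
  Real.cos t • w - Real.sin t • Φ.Js q v

/-- The component of `z` orthogonal to all `J q v` (for unit `v`). -/
noncomputable def Frm.prp (v z : V) : V := z - ∑ q, (inner ℝ (Φ.J q v) z : ℝ) • Φ.J q v

/-- `g (v, ·)`, homogeneous of degree two. -/
noncomputable def psi (g : V → V → ℝ) (v y : V) : ℝ := ‖y‖ ^ 2 * g v (‖y‖⁻¹ • y)

/-- The normalisation. -/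
noncomputable def Frm.cc : ℝ := ∫ u : Sph n, ‖Φ.prp Φ.a (Φ.L u)‖ ^ 2 ∂sig n

/-- The average of `g (v, ·)` over the unit vectors orthogonal to `v`. -/
noncomputable def Frm.P2 (g : V → V → ℝ) (v : V) : ℝ :=
  (Φ.cc)⁻¹ * ∫ u : Sph n, psi g v (Φ.prp v (Φ.L u)) ∂sig n

end one

section two

variable {V W : Type} [NormedAddCommGroup V] [InnerProductSpace ℝ V] [CompleteSpace V]
  [NormedAddCommGroup W] [InnerProductSpace ℝ W] [CompleteSpace W] {m n e : ℕ}
  (Φ : Frm V m e) (Ψ : Frm W n e)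

/-- The average of a function of two pairs. -/
noncomputable def Ev (U : V → V → W → W → ℝ) : ℝ :=
  ∫ R, Ψ.av (U (Φ.A R Φ.a) (Φ.A R Φ.b)) ∂Φ.μ

/-- Continuously differentiable functions of two pairs which are invariant under the diagonal
right multiplications. -/
structure Cl (U : V → V → W → W → ℝ) : Prop where
  c1 : ContDiff ℝ 1 (fun z : V × V × W × W => U z.1 z.2.1 z.2.2.1 z.2.2.2)
  neg1 : ∀ r r' v v', U (-r) r' (-v) v' = U r r' v v'
  neg2 : ∀ r r' v v', U r (-r') v (-v') = U r r' v v'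
  ph1 : ∀ q, q ≠ 0 → ∀ (t : ℝ) (r r' : V) (v v' : W),
    U (Real.cos t • r + Real.sin t • Φ.J q r) r' (Real.cos t • v + Real.sin t • Ψ.J q v) v' =
      U r r' v v'
  ph2 : ∀ q, q ≠ 0 → ∀ (t : ℝ) (r r' : V) (v v' : W),
    U r (Real.cos t • r' + Real.sin t • Φ.J q r') v (Real.cos t • v' + Real.sin t • Ψ.J q v') =
      U r r' v v'

/-- Exchange of the two vectors of both pairs. -/
def sw (U : V → V → W → W → ℝ) (r r' : V) (v v' : W) : ℝ := U r' r v' v

/-- Changes of sign of the vectors in `W`. -/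
def s1 (U : V → V → W → W → ℝ) (r r' : V) (v v' : W) : ℝ := U r r' (-v) v'

def s2 (U : V → V → W → W → ℝ) (r r' : V) (v v' : W) : ℝ := U r r' v (-v')

/-- The parts of given parity. -/
noncomputable def pEE (U : V → V → W → W → ℝ) (r r' : V) (v v' : W) : ℝ :=
  (U r r' v v' + U r r' (-v) v' + U r r' v (-v') + U r r' (-v) (-v')) / 4

noncomputable def pOO (U : V → V → W → W → ℝ) (r r' : V) (v v' : W) : ℝ :=
  (U r r' v v' - U r r' (-v) v' - U r r' v (-v') + U r r' (-v) (-v')) / 4

noncomputable def pOE (U : V → V → W → W → ℝ) (r r' : V) (v v' : W) : ℝ :=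
  (U r r' v v' - U r r' (-v) v' + U r r' v (-v') - U r r' (-v) (-v')) / 4

noncomputable def pEO (U : V → V → W → W → ℝ) (r r' : V) (v v' : W) : ℝ :=
  (U r r' v v' + U r r' (-v) v' - U r r' v (-v') - U r r' (-v) (-v')) / 4

/-- The average over the pairs in `W`, as a function of two pairs. -/
noncomputable def pA (U : V → V → W → W → ℝ) (r r' : V) (_ _ : W) : ℝ := Ψ.av (U r r')

/-- Derivatives with respect to the rotation `q` of the pair in `V`, in `W`. -/
noncomputable def dR (q : Fin (e + 1)) (U : V → V → W → W → ℝ) (r r' : V) (v v' : W) : ℝ :=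
  Φ.om q (fun ρ ρ' => U ρ ρ' v v') r r'

noncomputable def dW (q : Fin (e + 1)) (U : V → V → W → W → ℝ) (r r' : V) (v v' : W) : ℝ :=
  Ψ.om q (U r r') v v'

/-- The density of the energy in the directions of the orbits. -/
noncomputable def eD (x y : ℝ) (U : V → V → W → W → ℝ) (r r' : V) (v v' : W) : ℝ :=
  Ψ.n1 (U r r') v v' / x ^ 2 + Ψ.n2 (U r r') v v' / y ^ 2
    + ∑ q, ((dR Φ q U r r' v v' + dW Ψ q U r r' v v') ^ 2 / (2 * (x - y) ^ 2)
      + (dR Φ q U r r' v v' - dW Ψ q U r r' v v') ^ 2 / (2 * (x + y) ^ 2))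

end two

/-- The bilinear map `(r, v) ↦ r v*` into the ambient space `M`. -/
structure Tns {V W : Type} [NormedAddCommGroup V] [InnerProductSpace ℝ V]
    [NormedAddCommGroup W] [InnerProductSpace ℝ W] {m n e : ℕ} (Φ : Frm V m e) (Ψ : Frm W n e)
    (M : Type) [NormedAddCommGroup M] [InnerProductSpace ℝ M] where
  B : V → W → M
  add_l : ∀ r r' v, B (r + r') v = B r v + B r' v
  smul_l : ∀ (c : ℝ) r v, B (c • r) v = c • B r v
  add_r : ∀ r v v', B r (v + v') = B r v + B r v'
  smul_r : ∀ (c : ℝ) r v, B r (c • v) = c • B r v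
  bal : ∀ q r v, B (Φ.J q r) (Ψ.J q v) = B r v
  iso : ∀ r r', Φ.Pair r r' → ∀ v w v' w', inner ℝ (B r v + B r' w) (B r v' + B r' w') =
    inner ℝ v v' + inner ℝ w w'
  surj : ∀ r r', Φ.Pair r r' → ∀ X : M, ∃ v w, X = B r v + B r' w

section tensor

variable {V W M : Type} [NormedAddCommGroup V] [InnerProductSpace ℝ V] [CompleteSpace V]
  [NormedAddCommGroup W] [InnerProductSpace ℝ W] [CompleteSpace W]
  [NormedAddCommGroup M] [InnerProductSpace ℝ M] [CompleteSpace M] {m n e : ℕ}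
  {Φ : Frm V m e} {Ψ : Frm W n e} (T : Tns Φ Ψ M)

/-- The point `x r v* + y r' v'*`. -/
noncomputable def Tns.X (x y : ℝ) (r r' : V) (v v' : W) : M := x • T.B r v + y • T.B r' v'

/-- `f` on the orbit. -/
noncomputable def Tns.U (f : M → ℝ) (x y : ℝ) (r r' : V) (v v' : W) : ℝ := f (T.X x y r r' v v')

/-- The derivative of `f` along the curve with velocity `(x', y')`. -/
noncomputable def Tns.gT (f : M → ℝ) (x y x' y' : ℝ) (r r' : V) (v v' : W) : ℝ :=
  inner ℝ (gradient f (T.X x y r r' v v')) (T.X x' y' r r' v v')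

/-- The square of the tangential gradient. -/
noncomputable def Tns.gS (f : M → ℝ) (x y x' y' : ℝ) (r r' : V) (v v' : W) : ℝ :=
  ‖gradient f (T.X x y r r' v v')‖ ^ 2
    - (inner ℝ (gradient f (T.X x y r r' v v')) (T.X (-y') x' r r' v v')) ^ 2

end tensor

end Pool.Agent.Work.MP_408f4b_gt.Q
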