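import Pool.Agent.Work.MP_408f4b_gt.I.Poin
import Pool.Agent.Work.MP_408f4b_gt.I.GP
import Pool.Agent.Work.MP_408f4b_gt.I.G1
import Pool.Agent.Work.MP_408f4b_gt.I.Upd
import Pool.Agent.Work.MP_408f4b_gt.I.ES
import Pool.Agent.Work.MP_408f4b_gt.I.Polar
import Pool.Agent.Work.MP_408f4b_gt.Q.I.Eqn
import Pool.Agent.Work.MP_408f4b_gt.Q.I.Arm
import Pool.Agent.Work.MP_408f4b_gt.Q.I.Near
import Pool.Agent.Work.MP_408f4b_gt.Q.I.Refl
import Pool.Agent.Work.MP_408f4b_gt.Q.I.Ang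
import Pool.Agent.Work.MP_408f4b_gt.Q.I.Cross
import Pool.Agent.Work.MP_408f4b_gt.Q.I.Super
import Pool.Agent.Work.MP_408f4b_gt.Q.I.Inv
import Pool.Agent.Work.MP_408f4b_gt.Q.I.InvF
import Pool.Agent.Work.MP_408f4b_gt.Q.I.Sec0
import Pool.Agent.Work.MP_408f4b_gt.Q.I.SecV
import Pool.Agent.Work.MP_408f4b_gt.Q.I.Sec3
import Pool.Agent.Work.MP_408f4b_gt.Q.I.E1
import Pool.Agent.Work.MP_408f4b_gt.Q.I.Cube
import Pool.Agent.Work.MP_408f4b_gt.Q.I.ENa
import Pool.Agent.Work.MP_408f4b_gt.Q.I.ENb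
import Pool.Agent.Work.MP_408f4b_gt.Q.I.EN
import Pool.Agent.Work.MP_408f4b_gt.Q.I.Polar
import Pool.Agent.Work.MP_408f4b_gt.Q.I.ESph
import Pool.Agent.Work.MP_408f4b_gt.Q.I.Sig
import Pool.Agent.Work.MP_408f4b_gt.Q.I.Pair
import Pool.Agent.Work.MP_408f4b_gt.Q.I.Av
import Pool.Agent.Work.MP_408f4b_gt.Q.I.Unif
import Pool.Agent.Work.MP_408f4b_gt.Q.I.Fib
import Pool.Agent.Work.MP_408f4b_gt.Q.I.Psi
import Pool.Agent.Work.MP_408f4b_gt.Q.I.P2C
import Pool.Agent.Work.MP_408f4b_gt.Q.I.P2F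
import Pool.Agent.Work.MP_408f4b_gt.Q.I.P2E
import Pool.Agent.Work.MP_408f4b_gt.Q.I.P2D
import Pool.Agent.Work.MP_408f4b_gt.Q.I.Odd
import Pool.Agent.Work.MP_408f4b_gt.Q.I.Gee
import Pool.Agent.Work.MP_408f4b_gt.Q.I.Der
import Pool.Agent.Work.MP_408f4b_gt.Q.I.Ev
import Pool.Agent.Work.MP_408f4b_gt.Q.I.Fub
import Pool.Agent.Work.MP_408f4b_gt.Q.I.Pars
import Pool.Agent.Work.MP_408f4b_gt.Q.I.Wir
import Pool.Agent.Work.MP_408f4b_gt.Q.I.DR
import Pool.Agent.Work.MP_408f4b_gt.Q.I.Circ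
import Pool.Agent.Work.MP_408f4b_gt.Q.I.Cl
import Pool.Agent.Work.MP_408f4b_gt.Q.I.AvC1
import Pool.Agent.Work.MP_408f4b_gt.Q.I.VarR
import Pool.Agent.Work.MP_408f4b_gt.Q.I.N12
import Pool.Agent.Work.MP_408f4b_gt.Q.I.OddP
import Pool.Agent.Work.MP_408f4b_gt.Q.I.SubA
import Pool.Agent.Work.MP_408f4b_gt.Q.I.GW
import Pool.Agent.Work.MP_408f4b_gt.Q.I.EvenP
import Pool.Agent.Work.MP_408f4b_gt.Q.I.Fix
import Pool.Agent.Work.MP_408f4b_gt.Q.I.Int
import Pool.Agent.Work.MP_408f4b_gt.Q.I.TB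
import Pool.Agent.Work.MP_408f4b_gt.Q.I.TCl
import Pool.Agent.Work.MP_408f4b_gt.Q.I.TPt
import Pool.Agent.Work.MP_408f4b_gt.Q.I.Main
import Pool.Agent.Work.MP_408f4b_gt.Q.I.Bt
import Pool.Agent.Work.MP_408f4b_gt.Q.I.Two
import Pool.Agent.Work.MP_408f4b_gt.Q.I.Lim
import Pool.Agent.Work.MP_408f4b_gt.Q.I.One
import Pool.Agent.Work.MP_408f4b_gt.Q.I.Mom
import Pool.Agent.Work.MP_408f4b_gt.Q.I.Vol
import Pool.Agent.Work.MP_408f4b_gt.Q.I.Thm
import Pool.Agent.Work.MP_408f4b_gt.Q.I.Lin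
import Pool.Agent.Work.MP_408f4b_gt.Q.I.In
import Pool.Agent.Work.MP_408f4b_gt.Q.I.Bas
import Pool.Agent.Work.MP_408f4b_gt.Q.I.Act
import Pool.Agent.Work.MP_408f4b_gt.Q.I.Trans
import Pool.Agent.Work.MP_408f4b_gt.Q.I.Haar
import Pool.Agent.Work.MP_408f4b_gt.Q.I.Frm
import Pool.Agent.Work.MP_408f4b_gt.Q.I.Tns
import Pool.Agent.Work.MP_408f4b_gt.Q.I.Stek

set_option autoImplicit false

/-!
# Assembly
-/

namespace Pool.Agent.Work.MP_408f4b_gt.Q

theorem stek_all : clStek := by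
  have x_claimPoin : claimPoin :=
    Pool.Agent.Work.MP_408f4b_gt.prfPoin (prfGP prfG1 prfUpd prfES)
      Pool.Agent.Work.MP_408f4b_gt.prfPolar
  have x_clEqn : clEqn := prfEqn
  have x_clArm : clArm := prfArm x_clEqn
  have x_clNear : clNear := prfNear x_clEqn
  have x_clRefl : clRefl := prfRefl
  have x_clAng : clAng := prfAng
  have x_clCross : clCross := prfCross x_clArm x_clNear x_clRefl x_clAng
  have x_clSuper : clSuper := prfSuper x_clEqn
  have x_clInv : clInv := prfInv x_clSuper x_clCross x_clRefl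
  have x_clInvF : clInvF := prfInvF
  have x_clSec0 : clSec0 := prfSec0
  have x_clSecV : clSecV := prfSecV x_clEqn
  obtain ⟨x_clSecY, x_clSecR, x_clSecD⟩ := prfSec3 x_clSec0 x_clEqn
  have x_clE1 : clE1 := prfE1
  have x_clCube : clCube := prfCube
  have x_clENa : clENa := prfENa x_clE1 x_clCube
  have x_clENb : clENb := prfENb x_clE1
  have x_clEN : clEN := prfEN x_clE1 x_clENa x_clENb
  have x_clPolar : clPolar := prfPolar
  have x_clESph : clESph := prfESph x_clEN x_clPolar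
  have x_clSig : clSig := prfSig
  have x_clPair : clPair := prfPair
  have x_clAv : clAv := prfAv
  have x_clUnif : clUnif := prfUnif x_clAv x_clPair x_clSig
  have x_clFib : clFib := prfFib x_clAv x_clPair
  have x_clPsi : clPsi := prfPsi
  have x_clP2C : clP2C := prfP2C x_clPsi
  have x_clP2F : clP2F := prfP2F x_clAv x_clPair x_clFib x_clPolar
  have x_clP2E : clP2E := prfP2E x_clPair x_clPsi x_clP2C x_clSig
  have x_clP2D : clP2D := prfP2D x_clPair x_clSig x_clP2E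
  have x_clOdd : clOdd := prfOdd x_clAv x_clPair x_clFib x_claimPoin
  have x_clGee : clGee := prfGee x_clAv x_clPair x_clFib x_clUnif x_clESph x_clP2C x_clP2F x_clP2D
  have x_clDer : clDer := prfDer x_clPair x_clAv
  have x_clEv : clEv := prfEv x_clAv x_clPair
  have x_clFub : clFub := prfFub
  have x_clPars : clPars := prfPars x_clEv
  have x_clWir : clWir := prfWir
  have x_clDR : clDR := prfDR x_clPair x_clDer
  have x_clCirc : clCirc := prfCirc x_clEv x_clPair x_clWir x_clDR x_clFub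
  have x_clCl : clCl := prfCl
  have x_clAvC1 : clAvC1 := prfAvC1 x_clAv x_clPair x_clDR
  have x_clVarR : clVarR := prfVarR x_clEv x_clPair x_clDer x_clAvC1 x_clGee
  have x_clN12 : clN12 := prfN12 x_clAv x_clPair x_clDer x_clEv x_clOdd x_clDR x_clCl
  have x_clOddP : clOddP := prfOddP x_clEv x_clDR x_clCl x_clN12 x_clCirc
  have x_clSubA : clSubA := prfSubA x_clEv x_clPair x_clDR x_clAvC1 x_clDer x_clVarR
  have x_clGW : clGW := prfGW x_clAv x_clPair x_clDer x_clEv x_clDR x_clCl x_clGee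
  have x_clEvenP : clEvenP := prfEvenP x_clEv x_clPair x_clDer x_clDR x_clN12 x_clSubA x_clGW
  have x_clFix : clFix := prfFix x_clAv x_clPair x_clEv x_clDR x_clCl x_clOddP x_clEvenP
  have x_clInt : clInt := prfInt x_clEv x_clFub
  have x_clTB : clTB := prfTB x_clPair
  have x_clTCl : clTCl := prfTCl x_clPair x_clTB
  have x_clTPt : clTPt := prfTPt x_clPair x_clTB
  have x_clMain : clMain := prfMain x_clEqn x_clSecV x_clSecY x_clSecR x_clSecD x_clEv x_clFub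
      x_clPars x_clAv x_clFix x_clInt x_clTCl x_clTPt
  have x_clBt : clBt := prfBt x_clPars x_clTCl
  have x_clTwo : clTwo := prfTwo x_clMain x_clBt x_clInv x_clInvF x_clFub x_clTCl x_clEqn
  have x_clLim : clLim := prfLim x_clAv x_clEv x_clFub x_clPars x_clDer x_clAvC1 x_clVarR x_clTCl
      x_clTPt
  have x_clOne : clOne := prfOne x_clMain x_clBt x_clLim x_clEv x_clFub x_clTCl x_clTPt x_clEqn
  have x_clMom : clMom := prfMom x_clAv x_clPair x_clSig x_clUnif x_clEv x_clTB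
  have x_clVol : clVol := prfVol x_clEqn
  have x_clThm : clThm := prfThm x_clTwo x_clOne x_clVol
  have x_clLin : clLin := prfLin x_clVol x_clMom x_clEv
  have x_clIn : clIn := prfIn
  have x_clBas : clBas := prfBas
  have x_clAct : clAct := prfAct x_clIn
  have x_clTrans : clTrans := prfTrans x_clIn x_clAct
  have x_clHaar : clHaar := prfHaar
  have x_clFrm : clFrm := prfFrm x_clIn x_clAct x_clTrans x_clHaar
  have x_clTns : clTns := prfTns x_clIn x_clAct
  exact prfStek x_clBas x_clFrm x_clTns x_clThm x_clLin x_clTCl x_clEv x_clTB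

end Pool.Agent.Work.MP_408f4b_gt.Q
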