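import Pool.Agent.Work.MP_408f4b_gt.Q.Abs

set_option autoImplicit false

/-!
# Statements of the items
-/

namespace Pool.Agent.Work.MP_408f4b_gt.Q

open MeasureTheory Set Filter Topology

/-! ## Part 1: the profile curve -/

/-- the weight -/
noncomputable def wq (a b : ℕ) (x y : ℝ → ℝ) (s : ℝ) : ℝ :=
  (x s * y s) ^ a * (x s ^ 2 - y s ^ 2) ^ b

/-- the geodesic curvature of the profile -/
noncomputable def kq (a b : ℕ) (x y : ℝ → ℝ) (s : ℝ) : ℝ :=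
  a * (deriv x s / y s - deriv y s / x s)
    - 2 * b * (deriv x s * y s + deriv y s * x s) / (x s ^ 2 - y s ^ 2)

/-- A piece of a profile curve in the open chamber. -/
def Crv (a b : ℕ) (α β : ℝ) (x y : ℝ → ℝ) : Prop := ContDiff ℝ 2 x ∧ ContDiff ℝ 2 y ∧
  ∀ s ∈ Icc α β, 0 < y s ∧ y s < x s ∧ deriv x s ^ 2 + deriv y s ^ 2 = 1 ∧
    deriv x s * deriv (deriv y) s - deriv y s * deriv (deriv x) s = kq a b x y s

/-- The equations of the profile in the form in which they are used. -/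
def clEqn : Prop := ∀ (a b : ℕ) (α β : ℝ) (x y : ℝ → ℝ), 1 ≤ a → 1 ≤ b → α < β →
  Crv a b α β x y → ∀ s ∈ Icc α β,
  0 < wq a b x y s ∧
  HasDerivAt (deriv x) (-(kq a b x y s) * deriv y s) s ∧
  HasDerivAt (deriv y) (kq a b x y s * deriv x s) s ∧
  HasDerivAt (wq a b x y) (wq a b x y s * (a * (deriv x s / x s + deriv y s / y s)
    + 2 * b * (x s * deriv x s - y s * deriv y s) / (x s ^ 2 - y s ^ 2))) s ∧
  HasDerivAt (fun t => wq a b x y t * deriv x t)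
    (wq a b x y s * (a / x s + b / (x s - y s) + b / (x s + y s))) s ∧
  HasDerivAt (fun t => wq a b x y t * deriv y t)
    (wq a b x y s * (a / y s - b / (x s - y s) + b / (x s + y s))) s ∧
  HasDerivAt (fun t => wq a b x y t * (x t * deriv x t + y t * deriv y t))
    ((2 * (a : ℝ) + 2 * b + 1) * wq a b x y s) s ∧
  HasDerivAt (fun t => x t * deriv y t - y t * deriv x t)
    (kq a b x y s * (x s * deriv x s + y s * deriv y s)) s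

/-- Half a profile curve, from the nearest point to the origin on, gives an arm, in the doubled
variables. -/
def clArm : Prop := ∀ (a b : ℕ) (ℓ ε : ℝ) (x y : ℝ → ℝ), 1 ≤ a → 1 ≤ b → 0 < ℓ →
  (ε = 1 ∨ ε = -1) → Crv a b 0 ℓ x y → x 0 * deriv x 0 + y 0 * deriv y 0 = 0 →
  (∀ s ∈ Ioc 0 ℓ, 0 < x s * deriv x s + y s * deriv y s) →
  0 < ε * (x 0 * deriv y 0 - y 0 * deriv x 0) →
  ∃ φ ψ : ℝ → ℝ, 0 < Real.log (rad x y ℓ / rad x y 0) ∧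
    Arm (kk (b + 1) (a + 1)) ((a : ℝ) + b + 1 / 2) (2 * Real.log (rad x y ℓ / rad x y 0)) φ ψ ∧
    ψ 0 = ε * (Real.pi / 2) ∧ ∀ s ∈ Icc 0 ℓ,
      Real.log (rad x y s / rad x y 0) ∈ Icc 0 (Real.log (rad x y ℓ / rad x y 0)) ∧
      φ (2 * Real.log (rad x y s / rad x y 0)) = 2 * Real.arctan (y s / x s) ∧
      rad x y s * Real.sin (ψ (2 * Real.log (rad x y s / rad x y 0))) =
        x s * deriv y s - y s * deriv x s

/-- A chord: the data of a profile with two boundary components. -/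
structure Chd (a b : ℕ) (L : ℝ) (x y : ℝ → ℝ) : Prop where
  L_pos : 0 < L
  curve : Crv a b 0 L x y
  injOn : InjOn (fun s => (x s, y s)) (Icc 0 L)
  final : x L ^ 2 + y L ^ 2 = 1 ∧ deriv x L = x L ∧ deriv y L = y L
  initial : x 0 ^ 2 + y 0 ^ 2 = 1 ∧ deriv x 0 = -x 0 ∧ deriv y 0 = -y 0

/-- The nearest point to the origin is unique. -/
def clNear : Prop := ∀ (a b : ℕ) (L : ℝ) (x y : ℝ → ℝ), 1 ≤ a → 1 ≤ b → Chd a b L x y →
  ∃ s₀ ∈ Ioo 0 L, x s₀ * deriv x s₀ + y s₀ * deriv y s₀ = 0 ∧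
    (∀ s ∈ Ico 0 s₀, x s * deriv x s + y s * deriv y s < 0) ∧
    (∀ s ∈ Ioc s₀ L, 0 < x s * deriv x s + y s * deriv y s) ∧
    (x s₀ * deriv y s₀ - y s₀ * deriv x s₀) ^ 2 = x s₀ ^ 2 + y s₀ ^ 2

/-- the function whose zero set is the minimal cone -/
noncomputable def QQ (a b : ℕ) (x y : ℝ → ℝ) (s : ℝ) : ℝ :=
  a * (x s ^ 2 - y s ^ 2) ^ 2 - 4 * b * (x s * y s) ^ 2

/-- Reflection of arms, and reversal of chords. -/
def clRefl : Prop :=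
  (∀ (p q : ℕ) (d T : ℝ) (φ ψ : ℝ → ℝ), Arm (kk p q) d T φ ψ →
    Arm (kk q p) d T (fun t => Real.pi / 2 - φ t) (fun t => -ψ t)) ∧
  (∀ p q : ℕ, 2 ≤ p → 2 ≤ q → ang p q = Real.pi / 2 - ang q p) ∧
  ∀ (a b : ℕ) (L : ℝ) (x y : ℝ → ℝ), Chd a b L x y →
    Chd a b L (fun s => x (L - s)) (fun s => y (L - s))

/-- The sign of `QQ` in terms of the angle. -/
def clAng : Prop := ∀ (a b : ℕ) (x y : ℝ → ℝ) (s : ℝ), 1 ≤ a → 1 ≤ b → 0 < y s → y s < x s →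
  (0 < QQ a b x y s ↔ 2 * Real.arctan (y s / x s) < ang (b + 1) (a + 1)) ∧
  (QQ a b x y s = 0 ↔ 2 * Real.arctan (y s / x s) = ang (b + 1) (a + 1)) ∧
  2 * Real.arctan (y s / x s) ∈ Ioo 0 (Real.pi / 2)

/-- A chord meets the cone at most once, and not at its ends. -/
def clCross : Prop := ∀ (a b : ℕ) (L : ℝ) (x y : ℝ → ℝ), 1 ≤ a → 1 ≤ b → Chd a b L x y →
  QQ a b x y 0 ≠ 0 ∧ QQ a b x y L ≠ 0 ∧
  ∀ s ∈ Icc 0 L, ∀ s' ∈ Icc 0 L, QQ a b x y s = 0 → QQ a b x y s' = 0 → s = s'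

/-- The supersolution `|QQ|^(1/4)` on a piece on which `QQ` has the sign `ε` and which ends
orthogonally on the unit circle. -/
def clSuper : Prop := ∀ (a b : ℕ) (α β ε : ℝ) (x y : ℝ → ℝ), 1 ≤ a → 1 ≤ b → α < β →
  (ε = 1 ∨ ε = -1) → Crv a b α β x y → (∀ s ∈ Ioc α β, 0 < ε * QQ a b x y s) →
  deriv x β = x β → deriv y β = y β →
  (∀ s ∈ Ioc α β, wq a b x y β * (ε * QQ a b x y β) ^ (1 / 4 : ℝ) ≤
    wq a b x y s * deriv (fun t => (ε * QQ a b x y t) ^ (1 / 4 : ℝ)) s) ∧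
  ∫ s in α..β, (wq a b x y s)⁻¹ ≤ (wq a b x y β)⁻¹

/-- The inequality for a chord: the sector of the invariant functions. -/
def clInv : Prop := ∀ (a b : ℕ) (L : ℝ) (x y : ℝ → ℝ), 1 ≤ a → 1 ≤ b → Chd a b L x y →
  ∫ s in (0 : ℝ)..L, (wq a b x y s)⁻¹ ≤ (wq a b x y 0)⁻¹ + (wq a b x y L)⁻¹

/-- Invariant functions. -/
def clInvF : Prop := ∀ (L : ℝ) (w K K' : ℝ → ℝ), 0 < L → ContinuousOn w (Icc 0 L) →
  (∀ s ∈ Icc 0 L, 0 < w s) → ∫ s in (0 : ℝ)..L, (w s)⁻¹ ≤ (w 0)⁻¹ + (w L)⁻¹ →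
  (∀ s ∈ Icc 0 L, HasDerivAt K (K' s) s) → ContinuousOn K' (Icc 0 L) →
  K 0 * w 0 + K L * w L = 0 →
  K L ^ 2 * w L + K 0 ^ 2 * w 0 ≤ ∫ s in (0 : ℝ)..L, K' s ^ 2 * w s

/-! ## Part 2: the one dimensional inequalities of the sectors -/

/-- A one dimensional inequality with potential `pot`, weight `w` and boundary terms `cα`, `cβ`. -/
def Ineq1 (α β : ℝ) (w pot : ℝ → ℝ) (cα cβ : ℝ) : Prop :=
  ∀ u u' : ℝ → ℝ, (∀ s ∈ Icc α β, HasDerivAt u (u' s) s) → ContinuousOn u' (Icc α β) →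
    u β ^ 2 * cβ - u α ^ 2 * cα ≤ ∫ s in α..β, (u' s ^ 2 + pot s * u s ^ 2) * w s

/-- The same for pairs of functions. -/
def Ineq2 (α β : ℝ) (w p11 p12 p22 : ℝ → ℝ) (cα dα cβ dβ : ℝ) : Prop :=
  ∀ u u' v v' : ℝ → ℝ, (∀ s ∈ Icc α β, HasDerivAt u (u' s) s) → ContinuousOn u' (Icc α β) →
    (∀ s ∈ Icc α β, HasDerivAt v (v' s) s) → ContinuousOn v' (Icc α β) →
    (u β ^ 2 * cβ + v β ^ 2 * dβ) - (u α ^ 2 * cα + v α ^ 2 * dα) ≤
      ∫ s in α..β, (u' s ^ 2 + v' s ^ 2 + p11 s * u s ^ 2 + 2 * p12 s * (u s * v s)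
        + p22 s * v s ^ 2) * w s

/-- Supersolutions. -/
def clSec0 : Prop := ∀ (α β : ℝ) (w pot ρ ρ' F' : ℝ → ℝ), α < β → ContinuousOn w (Icc α β) →
  (∀ s ∈ Icc α β, 0 < w s) → ContinuousOn pot (Icc α β) → (∀ s ∈ Icc α β, 0 < ρ s) →
  (∀ s ∈ Icc α β, HasDerivAt ρ (ρ' s) s) → ContinuousOn F' (Icc α β) →
  (∀ s ∈ Icc α β, HasDerivAt (fun t => w t * ρ' t) (F' s) s) →
  (∀ s ∈ Icc α β, F' s ≤ w s * pot s * ρ s) →
  Ineq1 α β w pot (ρ' α / ρ α * w α) (ρ' β / ρ β * w β)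

/-- The sector of the odd functions (positive solution `(x, y)` of a cooperative system). -/
def clSecV : Prop := ∀ (a b : ℕ) (α β : ℝ) (x y : ℝ → ℝ), 1 ≤ a → 1 ≤ b → α < β →
  Crv a b α β x y → Ineq2 α β (wq a b x y)
    (fun s => a / x s ^ 2 + b / (x s - y s) ^ 2 + b / (x s + y s) ^ 2)
    (fun s => -b / (x s - y s) ^ 2 + b / (x s + y s) ^ 2)
    (fun s => a / y s ^ 2 + b / (x s - y s) ^ 2 + b / (x s + y s) ^ 2)
    (deriv x α / x α * wq a b x y α) (deriv y α / y α * wq a b x y α)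
    (deriv x β / x β * wq a b x y β) (deriv y β / y β * wq a b x y β)

/-- Supersolution `y`. -/
def clSecY : Prop := ∀ (a b : ℕ) (α β : ℝ) (x y : ℝ → ℝ), 1 ≤ a → 1 ≤ b → α < β →
  Crv a b α β x y → Ineq1 α β (wq a b x y) (fun s => a / y s ^ 2)
    (deriv y α / y α * wq a b x y α) (deriv y β / y β * wq a b x y β)

/-- Supersolution `r`. -/
def clSecR : Prop := ∀ (a b : ℕ) (α β : ℝ) (x y : ℝ → ℝ), 1 ≤ a → 1 ≤ b → α < β →
  Crv a b α β x y → Ineq1 α β (wq a b x y)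
    (fun s => (2 * (a : ℝ) + 2 * b + 1) / (x s ^ 2 + y s ^ 2))
    ((x α * deriv x α + y α * deriv y α) / (x α ^ 2 + y α ^ 2) * wq a b x y α)
    ((x β * deriv x β + y β * deriv y β) / (x β ^ 2 + y β ^ 2) * wq a b x y β)

/-- Supersolution `x - y`. -/
def clSecD : Prop := ∀ (a b : ℕ) (α β : ℝ) (x y : ℝ → ℝ), 1 ≤ a → 1 ≤ b → α < β →
  Crv a b α β x y → Ineq1 α β (wq a b x y) (fun s => 2 * b / (x s - y s) ^ 2)
    ((deriv x α - deriv y α) / (x α - y α) * wq a b x y α)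
    ((deriv x β - deriv y β) / (x β - y β) * wq a b x y β)

/-! ## Part 3: the spectral gap of the even functions on the sphere -/

open ProbabilityTheory in
/-- Gaussian Poincaré inequalities in dimension one, for derivatives of linear growth. -/
def clE1 : Prop := ∀ (f : ℝ → ℝ) (C : ℝ), ContDiff ℝ 1 f → (∀ t, |deriv f t| ≤ C * (1 + |t|)) →
  ∫ t, f t ^ 2 ∂(gaussianReal 0 1) - (∫ t, f t ∂(gaussianReal 0 1)) ^ 2 ≤
    ∫ t, deriv f t ^ 2 ∂(gaussianReal 0 1) ∧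
  ((∀ t, f (-t) = f t) →
    2 * (∫ t, f t ^ 2 ∂(gaussianReal 0 1) - (∫ t, f t ∂(gaussianReal 0 1)) ^ 2) ≤
      ∫ t, deriv f t ^ 2 ∂(gaussianReal 0 1))

/-- Poincaré inequality for the even functions on the discrete cube. -/
def clCube : Prop := ∀ (n : ℕ) (φ : (Fin n → Bool) → ℝ), (∀ ε, φ (fun i => !(ε i)) = φ ε) →
  8 * (∑ ε, φ ε ^ 2 - (∑ ε, φ ε) ^ 2 / 2 ^ n) ≤
    ∑ i, ∑ ε, (φ ε - φ (Function.update ε i (!(ε i)))) ^ 2

/-- Change of the sign of one coordinate. -/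
def flp {n : ℕ} (i : Fin n) (z : Fin n → ℝ) : Fin n → ℝ := Function.update z i (-(z i))

/-- Changes of signs. -/
def sg {n : ℕ} (ε : Fin n → Bool) (z : Fin n → ℝ) : Fin n → ℝ :=
  fun i => if ε i then z i else -(z i)

/-- The average over all changes of signs. -/
noncomputable def Gb {n : ℕ} (F : (Fin n → ℝ) → ℝ) (z : Fin n → ℝ) : ℝ :=
  (∑ ε : Fin n → Bool, F (sg ε z)) / 2 ^ n

open ProbabilityTheory in
/-- First part: fluctuation with respect to the signs. -/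
def clENa : Prop := ∀ (n : ℕ) (F : (Fin n → ℝ) → ℝ) (C : ℝ), ContDiff ℝ 1 F →
  (∀ z, F (-z) = F z) → (∀ z i, |fderiv ℝ F z (Pi.single i 1)| ≤ C * (1 + ∑ j, |z j|)) →
  Integrable (fun z => F z ^ 2) (Measure.pi fun _ : Fin n => gaussianReal 0 1) ∧
  (∀ i, Integrable (fun z => fderiv ℝ F z (Pi.single i 1) ^ 2)
    (Measure.pi fun _ : Fin n => gaussianReal 0 1)) ∧
  2 * (∫ z, F z ^ 2 ∂(Measure.pi fun _ : Fin n => gaussianReal 0 1) -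
      ∫ z, Gb F z ^ 2 ∂(Measure.pi fun _ : Fin n => gaussianReal 0 1)) ≤
    ∑ i, ∫ z, ((F z - F (flp i z)) / 2) ^ 2 ∂(Measure.pi fun _ : Fin n => gaussianReal 0 1)

open ProbabilityTheory in
/-- Second part: fluctuation of the average over the signs. -/
def clENb : Prop := ∀ (n : ℕ) (F : (Fin n → ℝ) → ℝ) (C : ℝ), ContDiff ℝ 1 F →
  (∀ z i, |fderiv ℝ F z (Pi.single i 1)| ≤ C * (1 + ∑ j, |z j|)) →
  ∫ z, Gb F z ∂(Measure.pi fun _ : Fin n => gaussianReal 0 1) =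
    ∫ z, F z ∂(Measure.pi fun _ : Fin n => gaussianReal 0 1) ∧
  2 * (∫ z, Gb F z ^ 2 ∂(Measure.pi fun _ : Fin n => gaussianReal 0 1) -
      (∫ z, Gb F z ∂(Measure.pi fun _ : Fin n => gaussianReal 0 1)) ^ 2) ≤
    ∑ i, ∫ z, (fderiv ℝ (fun z => (F z + F (flp i z)) / 2) z (Pi.single i 1)) ^ 2
      ∂(Measure.pi fun _ : Fin n => gaussianReal 0 1)

open ProbabilityTheory in
/-- Gaussian Poincaré inequality for even functions. -/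
def clEN : Prop := ∀ (n : ℕ) (F : (Fin n → ℝ) → ℝ) (C : ℝ), ContDiff ℝ 1 F →
  (∀ z, F (-z) = F z) → (∀ z i, |fderiv ℝ F z (Pi.single i 1)| ≤ C * (1 + ∑ j, |z j|)) →
  2 * (∫ z, F z ^ 2 ∂(Measure.pi fun _ : Fin n => gaussianReal 0 1) -
      (∫ z, F z ∂(Measure.pi fun _ : Fin n => gaussianReal 0 1)) ^ 2) ≤
    ∑ i, ∫ z, (fderiv ℝ F z (Pi.single i 1)) ^ 2 ∂(Measure.pi fun _ : Fin n => gaussianReal 0 1)

open ProbabilityTheory in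
/-- The Gaussian measure in polar coordinates. -/
def clPolar : Prop := ∀ n : ℕ, 1 ≤ n → ∃ c : ℝ, 0 < c ∧ ∀ h : E n → ℝ,
  ContinuousOn h {x | x ≠ 0} →
  ∫ x, ‖x‖ ^ 2 * h (‖x‖⁻¹ • x) ∂(stdGaussian (E n)) = n * (c * ∫ θ : Sph n, h θ ∂sig n) ∧
  ∫ x, ‖x‖ ^ 4 * h (‖x‖⁻¹ • x) ∂(stdGaussian (E n)) =
    n * (n + 2) * (c * ∫ θ : Sph n, h θ ∂sig n) ∧
  Integrable (fun x => ‖x‖ ^ 2 * h (‖x‖⁻¹ • x)) (stdGaussian (E n)) ∧
  Integrable (fun x => ‖x‖ ^ 4 * h (‖x‖⁻¹ • x)) (stdGaussian (E n)) ∧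
  c * (sig n).real univ = 1

/-- The spectral gap of the even functions on the sphere. -/
def clESph : Prop := ∀ (n : ℕ) (g : E n → ℝ), 1 ≤ n → ContDiff ℝ 1 g →
  (∀ θ : E n, ‖θ‖ = 1 → g (-θ) = g θ) →
  2 * (n : ℝ) * VV n (fun θ => g θ) ≤
    ∫ θ : Sph n, (‖gradient g (θ : E n)‖ ^ 2 - (inner ℝ (gradient g (θ : E n)) (θ : E n)) ^ 2) ∂sig n

/-- Invariance of the surface measure. -/
def clSig : Prop := ∀ (n : ℕ) (T : E n →ₗᵢ[ℝ] E n) (F : E n → ℝ), Continuous F →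
  ∫ θ : Sph n, F (T θ) ∂sig n = ∫ θ : Sph n, F θ ∂sig n

/-! ## Part 4: frames -/

/-- Elementary facts on pairs. -/
def clPair : Prop := ∀ (V : Type) [NormedAddCommGroup V] [InnerProductSpace ℝ V] [CompleteSpace V]
  (n e : ℕ) (Φ : Frm V n e),
  (∀ (q : Fin (e + 1)) (v w : V), inner ℝ (Φ.J q v) w = inner ℝ v (Φ.Js q w)) ∧
  (∀ (q : Fin (e + 1)) (v : V), Φ.J q (Φ.Js q v) = v ∧ Φ.Js q (Φ.J q v) = v ∧ ‖Φ.Js q v‖ = ‖v‖) ∧
  (∀ v w : V, Φ.Pair v w → Φ.Pair w v ∧ Φ.Pair (-v) w ∧ Φ.Pair v (-w) ∧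
    (∀ q, Φ.Pair (Φ.J q v) w) ∧ (∀ g, Φ.Pair (Φ.A g v) (Φ.A g w)) ∧
    (∀ (q : Fin (e + 1)) (t : ℝ), Φ.Pair (Φ.rt1 q t v w) (Φ.rt2 q t v w)) ∧
    ∀ q, q ≠ 0 → ∀ t : ℝ, Φ.Pair (Real.cos t • v + Real.sin t • Φ.J q v) w) ∧
  (∀ u : E (n - (e + 1)), ‖u‖ = 1 → Φ.Pair Φ.a (Φ.ι u) ∧ Φ.Pair (Φ.ι u) Φ.a) ∧
  (∀ v : V, ‖v‖ = 1 → ∃ w, Φ.Pair v w) ∧
  (∀ v w : V, (∀ q, inner ℝ (Φ.J q v) w = 0) → ∀ g, (∀ q, inner ℝ (Φ.J q (Φ.A g v)) (Φ.A g w) = 0)) ∧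
  (∀ g, Function.Surjective (Φ.A g)) ∧
  (∀ v : V, (∀ q, inner ℝ (Φ.J q Φ.a) v = 0) → ∃ u, Φ.ι u = v)

/-- Averages: invariance, continuity and derivatives with respect to parameters. -/
def clAv : Prop := ∀ (V : Type) [NormedAddCommGroup V] [InnerProductSpace ℝ V] [CompleteSpace V]
  (n e : ℕ) (Φ : Frm V n e),
  (∀ F : V → V → ℝ, Continuous (fun z : V × V => F z.1 z.2) →
    Continuous (fun g : Φ.G => F (Φ.A g Φ.a) (Φ.A g Φ.b)) ∧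
    ∀ v w, Φ.Pair v w → ∫ g, F (Φ.A g v) (Φ.A g w) ∂Φ.μ = Φ.av F) ∧
  (∀ (X : Type) [TopologicalSpace X] [FirstCountableTopology X] (F : X → V → V → ℝ),
    Continuous (fun z : X × V × V => F z.1 z.2.1 z.2.2) → Continuous (fun p => Φ.av (F p))) ∧
  ∀ (F F' : ℝ → V → V → ℝ), Continuous (fun z : ℝ × V × V => F z.1 z.2.1 z.2.2) →
    Continuous (fun z : ℝ × V × V => F' z.1 z.2.1 z.2.2) →
    (∀ s v w, HasDerivAt (fun t => F t v w) (F' s v w) s) →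
    ∀ s, HasDerivAt (fun t => Φ.av (F t)) (Φ.av (F' s)) s

/-- The first vector of a random pair is uniformly distributed on the sphere. -/
def clUnif : Prop := ∀ (V : Type) [NormedAddCommGroup V] [InnerProductSpace ℝ V] [CompleteSpace V]
  (n e : ℕ) (Φ : Frm V n e) (φ : V → ℝ), Continuous φ →
  Φ.av (fun v _ => φ v) = ((sig n).real univ)⁻¹ * ∫ u : Sph n, φ (Φ.L u) ∂sig n

/-- Disintegration with respect to one of the vectors of the pair. -/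
def clFib : Prop := ∀ (V : Type) [NormedAddCommGroup V] [InnerProductSpace ℝ V] [CompleteSpace V]
  (n e : ℕ) (Φ : Frm V n e) (F : V → V → ℝ), Continuous (fun z : V × V => F z.1 z.2) →
  Φ.av F = ((sig (n - (e + 1))).real univ)⁻¹ *
    ∫ g, (∫ u : Sph (n - (e + 1)), F (Φ.A g Φ.a) (Φ.A g (Φ.ι u)) ∂sig (n - (e + 1))) ∂Φ.μ ∧
  Φ.av F = ((sig (n - (e + 1))).real univ)⁻¹ *
    ∫ g, (∫ u : Sph (n - (e + 1)), F (Φ.A g (Φ.ι u)) (Φ.A g Φ.a) ∂sig (n - (e + 1))) ∂Φ.μ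

/-- Smoothness of the homogeneous extension. -/
def clPsi : Prop := ∀ (V : Type) [NormedAddCommGroup V] [InnerProductSpace ℝ V]
  [FiniteDimensional ℝ V] (g : V → V → ℝ), ContDiff ℝ 1 (fun z : V × V => g z.1 z.2) →
  ContDiff ℝ 1 (fun z : V × V => psi g z.1 z.2)

/-- Smoothness of `P2 g`. -/
def clP2C : Prop := ∀ (V : Type) [NormedAddCommGroup V] [InnerProductSpace ℝ V] [CompleteSpace V]
  (n e : ℕ) (Φ : Frm V n e) (g : V → V → ℝ), ContDiff ℝ 1 (fun z : V × V => g z.1 z.2) →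
  ContDiff ℝ 1 (Φ.P2 g)

/-- `P2 F` is the average over the second vector. -/
def clP2F : Prop := ∀ (V : Type) [NormedAddCommGroup V] [InnerProductSpace ℝ V] [CompleteSpace V]
  (n e : ℕ) (Φ : Frm V n e) (F : V → V → ℝ), Continuous (fun z : V × V => F z.1 z.2) →
  0 < Φ.cc ∧ Continuous (Φ.P2 F) ∧ (∀ g, Φ.P2 F (Φ.A g Φ.a) = ((sig (n - (e + 1))).real univ)⁻¹ *
    ∫ u : Sph (n - (e + 1)), F (Φ.A g Φ.a) (Φ.A g (Φ.ι u)) ∂sig (n - (e + 1))) ∧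
  Φ.av F = Φ.av (fun v _ => Φ.P2 F v) ∧
  ∀ g, ((sig (n - (e + 1))).real univ)⁻¹ * VV (n - (e + 1)) (fun u => F (Φ.A g Φ.a) (Φ.A g (Φ.ι u))) =
    Φ.P2 (fun v w => F v w ^ 2) (Φ.A g Φ.a) - Φ.P2 F (Φ.A g Φ.a) ^ 2

/-- The derivative of `P2 g`. -/
def clP2E : Prop := ∀ (V : Type) [NormedAddCommGroup V] [InnerProductSpace ℝ V] [CompleteSpace V]
  (n e : ℕ) (Φ : Frm V n e) (g : V → V → ℝ), ContDiff ℝ 1 (fun z : V × V => g z.1 z.2) →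
  ∀ v h : V, ‖v‖ = 1 → inner ℝ v h = 0 →
    inner ℝ (gradient (Φ.P2 g) v) h =
      Φ.P2 (fun v w => inner ℝ (gr1 g v w - ∑ q, (inner ℝ (gr2 g v w) (Φ.J q v) : ℝ) • Φ.Js q w) h) v

/-- The gradient of `P2 g`. -/
def clP2D : Prop := ∀ (V : Type) [NormedAddCommGroup V] [InnerProductSpace ℝ V] [CompleteSpace V]
  (n e : ℕ) (Φ : Frm V n e) (g : V → V → ℝ), ContDiff ℝ 1 (fun z : V × V => g z.1 z.2) →
  ∀ v : V, ‖v‖ = 1 →
    ‖gradient (Φ.P2 g) v‖ ^ 2 - (inner ℝ (gradient (Φ.P2 g) v) v) ^ 2 ≤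
      Φ.P2 (fun v w => Φ.n1 g v w + ∑ q, Φ.om q g v w ^ 2) v

/-- Poincaré inequality for functions which are odd in one of the vectors. -/
def clOdd : Prop := ∀ (V : Type) [NormedAddCommGroup V] [InnerProductSpace ℝ V] [CompleteSpace V]
  (n e : ℕ) (Φ : Frm V n e) (g : V → V → ℝ), 2 ≤ n - (e + 1) →
  ContDiff ℝ 1 (fun z : V × V => g z.1 z.2) →
  ((∀ v w, g (-v) w = -g v w) →
    (((n - (e + 1) : ℕ) : ℝ) - 1) * Φ.av (fun v w => g v w ^ 2) ≤ Φ.av (Φ.n1 g)) ∧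
  ((∀ v w, g v (-w) = -g v w) →
    (((n - (e + 1) : ℕ) : ℝ) - 1) * Φ.av (fun v w => g v w ^ 2) ≤ Φ.av (Φ.n2 g))

/-- Poincaré inequality for functions which are even in both vectors. -/
def clGee : Prop := ∀ (V : Type) [NormedAddCommGroup V] [InnerProductSpace ℝ V] [CompleteSpace V]
  (n e : ℕ) (Φ : Frm V n e) (g : V → V → ℝ),
  ContDiff ℝ 1 (fun z : V × V => g z.1 z.2) → (∀ v w, g (-v) w = g v w) →
  (∀ v w, g v (-w) = g v w) →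
  Φ.av (fun v w => g v w ^ 2) - Φ.av g ^ 2 ≤
    Φ.av (Φ.n2 g) / (2 * ((n - (e + 1) : ℕ) : ℝ)) +
      Φ.av (fun v w => Φ.n1 g v w + ∑ q, Φ.om q g v w ^ 2) / (2 * (n : ℝ))

/-- Derivatives of functions of pairs. -/
def clDer : Prop := ∀ (V : Type) [NormedAddCommGroup V] [InnerProductSpace ℝ V] [CompleteSpace V]
  (n e : ℕ) (Φ : Frm V n e) (g : V → V → ℝ), ContDiff ℝ 1 (fun z : V × V => g z.1 z.2) →
  Continuous (fun z : V × V => gr1 g z.1 z.2) ∧ Continuous (fun z : V × V => gr2 g z.1 z.2) ∧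
  Continuous (fun z : V × V => Φ.n1 g z.1 z.2) ∧ Continuous (fun z : V × V => Φ.n2 g z.1 z.2) ∧
  (∀ q, Continuous (fun z : V × V => Φ.om q g z.1 z.2)) ∧
  (∀ v w, Φ.Pair v w → 0 ≤ Φ.n1 g v w ∧ 0 ≤ Φ.n2 g v w) ∧
  (∀ q v w t, HasDerivAt (fun t => g (Φ.rt1 q t v w) (Φ.rt2 q t v w))
    (Φ.om q g (Φ.rt1 q t v w) (Φ.rt2 q t v w)) t) ∧
  (∀ q, Φ.av (Φ.om q g) = 0) ∧
  (∀ v w, Φ.n1 (fun v w => g (-v) w) v w = Φ.n1 g (-v) w ∧
    Φ.n2 (fun v w => g (-v) w) v w = Φ.n2 g (-v) w ∧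
    (∀ q, Φ.om q (fun v w => g (-v) w) v w = -Φ.om q g (-v) w) ∧
    Φ.n1 (fun v w => g v (-w)) v w = Φ.n1 g v (-w) ∧
    Φ.n2 (fun v w => g v (-w)) v w = Φ.n2 g v (-w) ∧
    (∀ q, Φ.om q (fun v w => g v (-w)) v w = -Φ.om q g v (-w))) ∧
  ∀ h : V → V → ℝ, ContDiff ℝ 1 (fun z : V × V => h z.1 z.2) → ∀ (c : ℝ) (v w : V),
    gr1 (fun v w => g v w + c * h v w) v w = gr1 g v w + c • gr1 h v w ∧
    gr2 (fun v w => g v w + c * h v w) v w = gr2 g v w + c • gr2 h v w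

end Pool.Agent.Work.MP_408f4b_gt.Q
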