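import Pool.Agent.Work.MP_408f4b_gt.Q.Stmts

set_option autoImplicit false

/-!
# Statements of the items, continued: functions of two pairs, the tensor, assembly
-/

namespace Pool.Agent.Work.MP_408f4b_gt.Q

open MeasureTheory Set Filter Topology

/-! ## Part 5: functions of two pairs -/

/-- Joint continuity. -/
def Co {V W : Type} [NormedAddCommGroup V] [NormedAddCommGroup W] (U : V → V → W → W → ℝ) : Prop :=
  Continuous (fun z : V × V × W × W => U z.1 z.2.1 z.2.2.1 z.2.2.2)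

/-- Joint continuity with a parameter. -/
def Cop {V W : Type} [NormedAddCommGroup V] [NormedAddCommGroup W] (h : ℝ → V → V → W → W → ℝ) :
    Prop :=
  Continuous (fun z : ℝ × V × V × W × W => h z.1 z.2.1 z.2.2.1 z.2.2.2.1 z.2.2.2.2)

/-- Joint continuous differentiability. -/
def C1 {V W : Type} [NormedAddCommGroup V] [NormedAddCommGroup W] [InnerProductSpace ℝ V]
    [InnerProductSpace ℝ W] (U : V → V → W → W → ℝ) : Prop :=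
  ContDiff ℝ 1 (fun z : V × V × W × W => U z.1 z.2.1 z.2.2.1 z.2.2.2)

/-- Elementary properties of `Ev`. -/
def clEv : Prop := ∀ (V W : Type) [NormedAddCommGroup V] [InnerProductSpace ℝ V] [CompleteSpace V]
  [NormedAddCommGroup W] [InnerProductSpace ℝ W] [CompleteSpace W] (m n e : ℕ) (Φ : Frm V m e)
  (Ψ : Frm W n e) (U U₂ : V → V → W → W → ℝ), Co U → Co U₂ →
  Continuous (fun z : Φ.G × Ψ.G => U (Φ.A z.1 Φ.a) (Φ.A z.1 Φ.b) (Ψ.A z.2 Ψ.a) (Ψ.A z.2 Ψ.b)) ∧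
  Ev Φ Ψ U = ∫ z, U (Φ.A z.1 Φ.a) (Φ.A z.1 Φ.b) (Ψ.A z.2 Ψ.a) (Ψ.A z.2 Ψ.b) ∂(Φ.μ.prod Ψ.μ) ∧
  Continuous (fun z : V × V => Ψ.av (U z.1 z.2)) ∧
  Ev Φ Ψ U = Φ.av (fun r r' => Ψ.av (U r r')) ∧
  Ev Φ Ψ U = Ψ.av (fun v v' => Φ.av (fun r r' => U r r' v v')) ∧
  Ev Φ Ψ (fun r r' v v' => U r' r v v') = Ev Φ Ψ U ∧
  Ev Φ Ψ (fun r r' v v' => U r r' v' v) = Ev Φ Ψ U ∧
  Ev Φ Ψ (s1 U) = Ev Φ Ψ U ∧ Ev Φ Ψ (s2 U) = Ev Φ Ψ U ∧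
  (∀ (q : Fin (e + 1)) (t t' : ℝ), Ev Φ Ψ (fun r r' v v' =>
    U (Φ.rt1 q t r r') (Φ.rt2 q t r r') (Ψ.rt1 q t' v v') (Ψ.rt2 q t' v v')) = Ev Φ Ψ U) ∧
  (∀ c d : ℝ, Ev Φ Ψ (fun r r' v v' => c * U r r' v v' + d * U₂ r r' v v') =
    c * Ev Φ Ψ U + d * Ev Φ Ψ U₂) ∧
  ((∀ r r' v v', Φ.Pair r r' → Ψ.Pair v v' → U r r' v v' ≤ U₂ r r' v v') →
    Ev Φ Ψ U ≤ Ev Φ Ψ U₂) ∧
  ((∀ r r' v v', Φ.Pair r r' → Ψ.Pair v v' → U r r' v v' = U₂ r r' v v') →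
    Ev Φ Ψ U = Ev Φ Ψ U₂) ∧
  (∀ c : ℝ, Ev Φ Ψ (fun _ _ _ _ => c) = c) ∧
  (∀ φ : V → V → ℝ, Ev Φ Ψ (fun r r' _ _ => φ r r') = Φ.av φ) ∧
  ∀ φ : W → W → ℝ, Ev Φ Ψ (fun _ _ v v' => φ v v') = Ψ.av φ

/-- Fubini, continuity and differentiability with respect to a parameter. -/
def clFub : Prop := ∀ (V W : Type) [NormedAddCommGroup V] [InnerProductSpace ℝ V] [CompleteSpace V]
  [NormedAddCommGroup W] [InnerProductSpace ℝ W] [CompleteSpace W] (m n e : ℕ) (Φ : Frm V m e)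
  (Ψ : Frm W n e) (h h' : ℝ → V → V → W → W → ℝ), Cop h → Cop h' →
  Continuous (fun s => Ev Φ Ψ (h s)) ∧
  (∀ α β : ℝ, ∫ s in α..β, Ev Φ Ψ (h s) =
    Ev Φ Ψ (fun r r' v v' => ∫ s in α..β, h s r r' v v')) ∧
  ((∀ s r r' v v', HasDerivAt (fun t => h t r r' v v') (h' s r r' v v') s) →
    ∀ s, HasDerivAt (fun t => Ev Φ Ψ (h t)) (Ev Φ Ψ (h' s)) s)

/-- Decomposition into parities. -/
def clPars : Prop := ∀ (V W : Type) [NormedAddCommGroup V] [InnerProductSpace ℝ V] [CompleteSpace V]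
  [NormedAddCommGroup W] [InnerProductSpace ℝ W] [CompleteSpace W] (m n e : ℕ) (Φ : Frm V m e)
  (Ψ : Frm W n e) (U : V → V → W → W → ℝ), Co U →
  Ev Φ Ψ (fun r r' v v' => U r r' v v' ^ 2) =
    Ev Φ Ψ (fun r r' v v' => pOE U r r' v v' ^ 2) +
    Ev Φ Ψ (fun r r' v v' => sw (pEO U) r r' v v' ^ 2) +
    Ev Φ Ψ (fun r r' v v' => pOO U r r' v v' ^ 2) +
    Ev Φ Ψ (fun r r' v v' => (pEE U r r' v v' - pA Ψ U r r' v v') ^ 2) +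
    (Ev Φ Ψ (fun r r' v v' => pA Ψ U r r' v v' ^ 2) - Ev Φ Ψ U ^ 2) + Ev Φ Ψ U ^ 2 ∧
  0 ≤ Ev Φ Ψ (fun r r' v v' => pA Ψ U r r' v v' ^ 2) - Ev Φ Ψ U ^ 2 ∧
  Ev Φ Ψ (pA Ψ U) = Ev Φ Ψ U ∧
  Co (pOE U) ∧ Co (sw (pEO U)) ∧ Co (pOO U) ∧ Co (pEE U) ∧ Co (pA Ψ U)

/-- Wirtinger's inequality for functions of period `π`. -/
def clWir : Prop := ∀ φ φ' : ℝ → ℝ, (∀ t, HasDerivAt φ (φ' t) t) → Continuous φ' →
  (∀ t, φ (t + Real.pi) = φ t) →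
  ∫ t in (0 : ℝ)..Real.pi, (φ t - φ (t + Real.pi / 2)) ^ 2 ≤ ∫ t in (0 : ℝ)..Real.pi, φ' t ^ 2

/-- Derivatives of functions of two pairs. -/
def clDR : Prop := ∀ (V W : Type) [NormedAddCommGroup V] [InnerProductSpace ℝ V] [CompleteSpace V]
  [NormedAddCommGroup W] [InnerProductSpace ℝ W] [CompleteSpace W] (m n e : ℕ) (Φ : Frm V m e)
  (Ψ : Frm W n e) (U U₂ : V → V → W → W → ℝ), C1 U → C1 U₂ →
  (∀ q, Co (dR Φ q U) ∧ Co (dW Ψ q U)) ∧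
  Co (fun r r' v v' => Ψ.n1 (U r r') v v') ∧ Co (fun r r' v v' => Ψ.n2 (U r r') v v') ∧
  (∀ x y : ℝ, Co (eD Φ Ψ x y U)) ∧
  (∀ (q : Fin (e + 1)) (κ : ℝ) (r r' : V) (v v' : W) (t : ℝ),
    HasDerivAt (fun t => U (Φ.rt1 q t r r') (Φ.rt2 q t r r') (Ψ.rt1 q (κ * t) v v')
        (Ψ.rt2 q (κ * t) v v'))
      (dR Φ q U (Φ.rt1 q t r r') (Φ.rt2 q t r r') (Ψ.rt1 q (κ * t) v v') (Ψ.rt2 q (κ * t) v v') +
        κ * dW Ψ q U (Φ.rt1 q t r r') (Φ.rt2 q t r r') (Ψ.rt1 q (κ * t) v v')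
          (Ψ.rt2 q (κ * t) v v')) t) ∧
  (∀ (q : Fin (e + 1)) (c : ℝ) (r r' : V) (v v' : W),
    dR Φ q (fun r r' v v' => U r r' v v' + c * U₂ r r' v v') r r' v v' =
      dR Φ q U r r' v v' + c * dR Φ q U₂ r r' v v' ∧
    dW Ψ q (fun r r' v v' => U r r' v v' + c * U₂ r r' v v') r r' v v' =
      dW Ψ q U r r' v v' + c * dW Ψ q U₂ r r' v v') ∧
  (∀ (r r' : V) (v v' : W),
    Ψ.n1 (fun v v' => U r r' v v' + U₂ r r' v v') v v' +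
      Ψ.n1 (fun v v' => U r r' v v' - U₂ r r' v v') v v' =
      2 * Ψ.n1 (U r r') v v' + 2 * Ψ.n1 (U₂ r r') v v' ∧
    Ψ.n2 (fun v v' => U r r' v v' + U₂ r r' v v') v v' +
      Ψ.n2 (fun v v' => U r r' v v' - U₂ r r' v v') v v' =
      2 * Ψ.n2 (U r r') v v' + 2 * Ψ.n2 (U₂ r r') v v' ∧
    ∀ c : ℝ, Ψ.n1 (fun v v' => c * U r r' v v') v v' = c ^ 2 * Ψ.n1 (U r r') v v' ∧
      Ψ.n2 (fun v v' => c * U r r' v v') v v' = c ^ 2 * Ψ.n2 (U r r') v v') ∧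
  (∀ (x y : ℝ) (r r' : V) (v v' : W),
    eD Φ Ψ x y (fun r r' v v' => U r r' v v' + U₂ r r' v v') r r' v v' +
      eD Φ Ψ x y (fun r r' v v' => U r r' v v' - U₂ r r' v v') r r' v v' =
      2 * eD Φ Ψ x y U r r' v v' + 2 * eD Φ Ψ x y U₂ r r' v v' ∧
    (∀ c : ℝ, eD Φ Ψ x y (fun r r' v v' => c * U r r' v v') r r' v v' =
      c ^ 2 * eD Φ Ψ x y U r r' v v') ∧
    eD Φ Ψ x y (fun r r' v v' => U r r' (-v) (-v')) r r' v v' = eD Φ Ψ x y U r r' (-v) (-v')) ∧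
  (∀ (x y : ℝ) (r r' : V) (v v' : W), Ψ.Pair v v' → 0 ≤ eD Φ Ψ x y U r r' v v')

/-- The circle inequality. -/
def clCirc : Prop := ∀ (V W : Type) [NormedAddCommGroup V] [InnerProductSpace ℝ V] [CompleteSpace V]
  [NormedAddCommGroup W] [InnerProductSpace ℝ W] [CompleteSpace W] (m n e : ℕ) (Φ : Frm V m e)
  (Ψ : Frm W n e) (U : V → V → W → W → ℝ), Cl Φ Ψ U → ∀ q : Fin (e + 1),
  Ev Φ Ψ (fun r r' v v' => (U r r' v v' - U r' r v' v) ^ 2) ≤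
    Ev Φ Ψ (fun r r' v v' => (dR Φ q U r r' v v' + dW Ψ q U r r' v v') ^ 2) ∧
  Ev Φ Ψ (fun r r' v v' => (U r r' v v' - U r' r (-v') (-v)) ^ 2) ≤
    Ev Φ Ψ (fun r r' v v' => (dR Φ q U r r' v v' - dW Ψ q U r r' v v') ^ 2)

/-- Closure properties of the class `Cl`. -/
def clCl : Prop := ∀ (V W : Type) [NormedAddCommGroup V] [InnerProductSpace ℝ V] [CompleteSpace V]
  [NormedAddCommGroup W] [InnerProductSpace ℝ W] [CompleteSpace W] (m n e : ℕ) (Φ : Frm V m e)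
  (Ψ : Frm W n e) (U : V → V → W → W → ℝ), Cl Φ Ψ U →
  (∀ U₂, Cl Φ Ψ U₂ → ∀ c d : ℝ, Cl Φ Ψ (fun r r' v v' => c * U r r' v v' + d * U₂ r r' v v')) ∧
  Cl Φ Ψ (s1 U) ∧ Cl Φ Ψ (s2 U) ∧ Cl Φ Ψ (sw U) ∧
  Cl Φ Ψ (fun r r' v v' => (U r r' v v' + U r r' (-v) (-v')) / 2) ∧
  Cl Φ Ψ (fun r r' v v' => (U r r' v v' - U r r' (-v) (-v')) / 2) ∧
  Cl Φ Ψ (pEE U) ∧ Cl Φ Ψ (pOO U) ∧ Cl Φ Ψ (pOE U) ∧ Cl Φ Ψ (pEO U)

/-- The average over the pairs in `W`. -/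
def clAvC1 : Prop := ∀ (V W : Type) [NormedAddCommGroup V] [InnerProductSpace ℝ V] [CompleteSpace V]
  [NormedAddCommGroup W] [InnerProductSpace ℝ W] [CompleteSpace W] (m n e : ℕ) (Φ : Frm V m e)
  (Ψ : Frm W n e) (U : V → V → W → W → ℝ), Cl Φ Ψ U →
  ContDiff ℝ 1 (fun z : V × V => Ψ.av (U z.1 z.2)) ∧ C1 (pA Ψ U) ∧
  (∀ (q : Fin (e + 1)) (r r' : V) (v v' : W), dR Φ q (pA Ψ U) r r' v v' =
    Ψ.av (fun v v' => dR Φ q U r r' v v')) ∧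
  (∀ (q : Fin (e + 1)) (r r' : V) (v v' : W), dW Ψ q (pA Ψ U) r r' v v' = 0) ∧
  (∀ r r', Ψ.av (U (-r) r') = Ψ.av (U r r') ∧ Ψ.av (U r (-r')) = Ψ.av (U r r')) ∧
  ∀ q, q ≠ 0 → ∀ (t : ℝ) (r r' : V),
    Ψ.av (U (Real.cos t • r + Real.sin t • Φ.J q r) r') = Ψ.av (U r r') ∧
    Ψ.av (U r (Real.cos t • r' + Real.sin t • Φ.J q r')) = Ψ.av (U r r')

/-- Poincaré inequality for the average. -/
def clVarR : Prop := ∀ (V W : Type) [NormedAddCommGroup V] [InnerProductSpace ℝ V] [CompleteSpace V]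
  [NormedAddCommGroup W] [InnerProductSpace ℝ W] [CompleteSpace W] (n e : ℕ)
  (Φ : Frm V (2 * (e + 1)) e) (Ψ : Frm W n e) (U : V → V → W → W → ℝ), Cl Φ Ψ U →
  4 * ((e : ℝ) + 1) * (Ev Φ Ψ (fun r r' v v' => pA Ψ U r r' v v' ^ 2) - Ev Φ Ψ U ^ 2) ≤
    Ev Φ Ψ (fun r r' v v' => ∑ q, dR Φ q (pA Ψ U) r r' v v' ^ 2)

/-- The part of a given parity in one of the vectors. -/
def clN12 : Prop := ∀ (V W : Type) [NormedAddCommGroup V] [InnerProductSpace ℝ V] [CompleteSpace V]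
  [NormedAddCommGroup W] [InnerProductSpace ℝ W] [CompleteSpace W] (m n e : ℕ)
  (Φ : Frm V m e) (Ψ : Frm W n e) (U : V → V → W → W → ℝ), Cl Φ Ψ U → 2 ≤ n - (e + 1) →
  (((n - (e + 1) : ℕ) : ℝ) - 1) *
      Ev Φ Ψ (fun r r' v v' => ((U r r' v v' - U r r' (-v) v') / 2) ^ 2) ≤
    Ev Φ Ψ (fun r r' v v' => Ψ.n1 (U r r') v v') ∧
  (((n - (e + 1) : ℕ) : ℝ) - 1) *
      Ev Φ Ψ (fun r r' v v' => ((U r r' v v' - U r r' v (-v')) / 2) ^ 2) +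
      Ev Φ Ψ (fun r r' v v' => Ψ.n2 (fun v v' => (U r r' v v' + U r r' v (-v')) / 2) v v') ≤
    Ev Φ Ψ (fun r r' v v' => Ψ.n2 (U r r') v v')

/-- The odd part. -/
def clOddP : Prop := ∀ (V W : Type) [NormedAddCommGroup V] [InnerProductSpace ℝ V] [CompleteSpace V]
  [NormedAddCommGroup W] [InnerProductSpace ℝ W] [CompleteSpace W] (m n e : ℕ)
  (Φ : Frm V m e) (Ψ : Frm W n e) (U : V → V → W → W → ℝ) (x y : ℝ), Cl Φ Ψ U →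
  2 ≤ n - (e + 1) → 0 < y → y < x → (∀ r r' v v', U r r' (-v) (-v') = -U r r' v v') →
  Ev Φ Ψ (fun r r' v v' =>
      (((n - (e + 1) : ℕ) : ℝ) - 1) * (pOE U r r' v v' ^ 2 / x ^ 2) +
      (((n - (e + 1) : ℕ) : ℝ) - 1) * (sw (pEO U) r r' v v' ^ 2 / y ^ 2) +
      ((e : ℝ) + 1) * ((pOE U r r' v v' - sw (pEO U) r r' v v') ^ 2 / (x - y) ^ 2) +
      ((e : ℝ) + 1) * ((pOE U r r' v v' + sw (pEO U) r r' v v') ^ 2 / (x + y) ^ 2)) ≤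
    Ev Φ Ψ (eD Φ Ψ x y U)

/-- The even part: subtraction of the average. -/
def clSubA : Prop := ∀ (V W : Type) [NormedAddCommGroup V] [InnerProductSpace ℝ V] [CompleteSpace V]
  [NormedAddCommGroup W] [InnerProductSpace ℝ W] [CompleteSpace W] (n e : ℕ)
  (Φ : Frm V (2 * (e + 1)) e) (Ψ : Frm W n e) (U : V → V → W → W → ℝ) (x y : ℝ), Cl Φ Ψ U →
  0 < y → y < x →
  Ev Φ Ψ (fun r r' v v' => ∑ q, dW Ψ q U r r' v v' ^ 2) / (x ^ 2 + y ^ 2) +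
    2 * ((e : ℝ) + 1) / (x - y) ^ 2 *
      (Ev Φ Ψ (fun r r' v v' => pA Ψ U r r' v v' ^ 2) - Ev Φ Ψ U ^ 2) ≤
    Ev Φ Ψ (fun r r' v v' => ∑ q, ((dR Φ q U r r' v v' + dW Ψ q U r r' v v') ^ 2 /
      (2 * (x - y) ^ 2) + (dR Φ q U r r' v v' - dW Ψ q U r r' v v') ^ 2 / (2 * (x + y) ^ 2)))

/-- The part which is even in both vectors. -/
def clGW : Prop := ∀ (V W : Type) [NormedAddCommGroup V] [InnerProductSpace ℝ V] [CompleteSpace V]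
  [NormedAddCommGroup W] [InnerProductSpace ℝ W] [CompleteSpace W] (m n e : ℕ)
  (Φ : Frm V m e) (Ψ : Frm W n e) (U : V → V → W → W → ℝ), Cl Φ Ψ U →
  (∀ r r' v v', U r r' (-v) (-v') = U r r' v v') →
  (2 * (n : ℝ) - 1) * Ev Φ Ψ (fun r r' v v' => (pEE U r r' v v' - pA Ψ U r r' v v') ^ 2) ≤
    Ev Φ Ψ (fun r r' v v' => Ψ.n1 (U r r') v v') +
    2 * Ev Φ Ψ (fun r r' v v' => Ψ.n2 (fun v v' => (U r r' v v' + U r r' v (-v')) / 2) v v') +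
    Ev Φ Ψ (fun r r' v v' => ∑ q, dW Ψ q U r r' v v' ^ 2)

/-- The even part. -/
def clEvenP : Prop := ∀ (V W : Type) [NormedAddCommGroup V] [InnerProductSpace ℝ V]
  [CompleteSpace V] [NormedAddCommGroup W] [InnerProductSpace ℝ W] [CompleteSpace W] (n e : ℕ)
  (Φ : Frm V (2 * (e + 1)) e) (Ψ : Frm W n e) (U : V → V → W → W → ℝ) (x y : ℝ), Cl Φ Ψ U →
  2 ≤ n - (e + 1) → 0 < y → y < x → (∀ r r' v v', U r r' (-v) (-v') = U r r' v v') →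
  (((n - (e + 1) : ℕ) : ℝ) - 1) / y ^ 2 * Ev Φ Ψ (fun r r' v v' => pOO U r r' v v' ^ 2) +
    (2 * (n : ℝ) - 1) / (x ^ 2 + y ^ 2) *
      Ev Φ Ψ (fun r r' v v' => (pEE U r r' v v' - pA Ψ U r r' v v') ^ 2) +
    2 * ((e : ℝ) + 1) / (x - y) ^ 2 *
      (Ev Φ Ψ (fun r r' v v' => pA Ψ U r r' v v' ^ 2) - Ev Φ Ψ U ^ 2) ≤
    Ev Φ Ψ (eD Φ Ψ x y U)

/-- The inequality on the orbits. -/
def clFix : Prop := ∀ (V W : Type) [NormedAddCommGroup V] [InnerProductSpace ℝ V] [CompleteSpace V]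
  [NormedAddCommGroup W] [InnerProductSpace ℝ W] [CompleteSpace W] (n e : ℕ)
  (Φ : Frm V (2 * (e + 1)) e) (Ψ : Frm W n e) (U : V → V → W → W → ℝ) (x y : ℝ), Cl Φ Ψ U →
  2 ≤ n - (e + 1) → 0 < y → y < x →
  Ev Φ Ψ (fun r r' v v' =>
      (((n - (e + 1) : ℕ) : ℝ) - 1) * (pOE U r r' v v' ^ 2 / x ^ 2) +
      (((n - (e + 1) : ℕ) : ℝ) - 1) * (sw (pEO U) r r' v v' ^ 2 / y ^ 2) +
      ((e : ℝ) + 1) * ((pOE U r r' v v' - sw (pEO U) r r' v v') ^ 2 / (x - y) ^ 2) +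
      ((e : ℝ) + 1) * ((pOE U r r' v v' + sw (pEO U) r r' v v') ^ 2 / (x + y) ^ 2)) +
    ((((n - (e + 1) : ℕ) : ℝ) - 1) / y ^ 2 * Ev Φ Ψ (fun r r' v v' => pOO U r r' v v' ^ 2) +
    (2 * (n : ℝ) - 1) / (x ^ 2 + y ^ 2) *
      Ev Φ Ψ (fun r r' v v' => (pEE U r r' v v' - pA Ψ U r r' v v') ^ 2) +
    2 * ((e : ℝ) + 1) / (x - y) ^ 2 *
      (Ev Φ Ψ (fun r r' v v' => pA Ψ U r r' v v' ^ 2) - Ev Φ Ψ U ^ 2)) ≤
    Ev Φ Ψ (eD Φ Ψ x y U)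

/-- Integration of the one dimensional inequalities. -/
def clInt : Prop := ∀ (V W : Type) [NormedAddCommGroup V] [InnerProductSpace ℝ V] [CompleteSpace V]
  [NormedAddCommGroup W] [InnerProductSpace ℝ W] [CompleteSpace W] (m n e : ℕ) (Φ : Frm V m e)
  (Ψ : Frm W n e) (α β : ℝ) (w : ℝ → ℝ), α < β → ContinuousOn w (Icc α β) →
  ∀ h h' : ℝ → V → V → W → W → ℝ, Cop h → Cop h' →
  (∀ s r r' v v', HasDerivAt (fun t => h t r r' v v') (h' s r r' v v') s) →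
  (∀ (pot : ℝ → ℝ) (cα cβ : ℝ), ContinuousOn pot (Icc α β) → Ineq1 α β w pot cα cβ →
    Ev Φ Ψ (fun r r' v v' => h β r r' v v' ^ 2) * cβ -
      Ev Φ Ψ (fun r r' v v' => h α r r' v v' ^ 2) * cα ≤
    ∫ s in α..β, (Ev Φ Ψ (fun r r' v v' => h' s r r' v v' ^ 2) +
      pot s * Ev Φ Ψ (fun r r' v v' => h s r r' v v' ^ 2)) * w s) ∧
  ∀ k k' : ℝ → V → V → W → W → ℝ, Cop k → Cop k' →
  (∀ s r r' v v', HasDerivAt (fun t => k t r r' v v') (k' s r r' v v') s) →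
  ∀ (p11 p12 p22 : ℝ → ℝ) (cα dα cβ dβ : ℝ), ContinuousOn p11 (Icc α β) →
    ContinuousOn p12 (Icc α β) → ContinuousOn p22 (Icc α β) →
    Ineq2 α β w p11 p12 p22 cα dα cβ dβ →
    (Ev Φ Ψ (fun r r' v v' => h β r r' v v' ^ 2) * cβ +
        Ev Φ Ψ (fun r r' v v' => k β r r' v v' ^ 2) * dβ) -
      (Ev Φ Ψ (fun r r' v v' => h α r r' v v' ^ 2) * cα +
        Ev Φ Ψ (fun r r' v v' => k α r r' v v' ^ 2) * dα) ≤
    ∫ s in α..β, (Ev Φ Ψ (fun r r' v v' => h' s r r' v v' ^ 2) +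
      Ev Φ Ψ (fun r r' v v' => k' s r r' v v' ^ 2) +
      Ev Φ Ψ (fun r r' v v' => p11 s * h s r r' v v' ^ 2 +
        2 * p12 s * (h s r r' v v' * k s r r' v v') + p22 s * k s r r' v v' ^ 2)) * w s

/-! ## Part 6: the tensor -/

/-- Pointwise facts. -/
def clTB : Prop := ∀ (V W M : Type) [NormedAddCommGroup V] [InnerProductSpace ℝ V] [CompleteSpace V]
  [NormedAddCommGroup W] [InnerProductSpace ℝ W] [CompleteSpace W]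
  [NormedAddCommGroup M] [InnerProductSpace ℝ M] [CompleteSpace M] (m n e : ℕ)
  (Φ : Frm V m e) (Ψ : Frm W n e) (T : Tns Φ Ψ M),
  ContDiff ℝ 1 (fun z : V × W => T.B z.1 z.2) ∧ FiniteDimensional ℝ M ∧
  (∀ (q : Fin (e + 1)) (r : V) (v : W), T.B (Φ.J q r) v = T.B r (Ψ.Js q v) ∧
    T.B (Φ.Js q r) v = T.B r (Ψ.J q v)) ∧
  (∀ q, q ≠ 0 → ∀ (t : ℝ) (r : V) (v : W),
    T.B (Real.cos t • r + Real.sin t • Φ.J q r) (Real.cos t • v + Real.sin t • Ψ.J q v) =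
      T.B r v) ∧
  ContDiff ℝ 1 (fun z : (ℝ × ℝ) × V × V × W × W =>
    T.X z.1.1 z.1.2 z.2.1 z.2.2.1 z.2.2.2.1 z.2.2.2.2)

/-- The class of the restrictions to the orbits. -/
def clTCl : Prop := ∀ (V W M : Type) [NormedAddCommGroup V] [InnerProductSpace ℝ V] [CompleteSpace V]
  [NormedAddCommGroup W] [InnerProductSpace ℝ W] [CompleteSpace W]
  [NormedAddCommGroup M] [InnerProductSpace ℝ M] [CompleteSpace M] (m n e : ℕ)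
  (Φ : Frm V m e) (Ψ : Frm W n e) (T : Tns Φ Ψ M) (f : M → ℝ), ContDiff ℝ 1 f →
  (∀ x y : ℝ, Cl Φ Ψ (T.U f x y)) ∧
  ∀ x x' y y' : ℝ → ℝ, (∀ s, HasDerivAt x (x' s) s) → (∀ s, HasDerivAt y (y' s) s) →
    Continuous x' → Continuous y' →
    (∀ s r r' v v', HasDerivAt (fun t => T.U f (x t) (y t) r r' v v')
      (T.gT f (x s) (y s) (x' s) (y' s) r r' v v') s) ∧
    Cop (fun s => T.U f (x s) (y s)) ∧ Cop (fun s => T.gT f (x s) (y s) (x' s) (y' s)) ∧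
    Cop (fun s => T.gS f (x s) (y s) (x' s) (y' s))

/-- The gradient on the orbits. -/
def clTPt : Prop := ∀ (V W M : Type) [NormedAddCommGroup V] [InnerProductSpace ℝ V] [CompleteSpace V]
  [NormedAddCommGroup W] [InnerProductSpace ℝ W] [CompleteSpace W]
  [NormedAddCommGroup M] [InnerProductSpace ℝ M] [CompleteSpace M] (m n e : ℕ)
  (Φ : Frm V m e) (Ψ : Frm W n e) (T : Tns Φ Ψ M) (f : M → ℝ), ContDiff ℝ 1 f →
  (∀ (x y x' y' : ℝ) (r r' : V) (v v' : W), 0 < y → y < x → x' ^ 2 + y' ^ 2 = 1 →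
    Φ.Pair r r' → Ψ.Pair v v' →
    T.gS f x y x' y' r r' v v' = T.gT f x y x' y' r r' v v' ^ 2 +
      eD Φ Ψ x y (T.U f x y) r r' v v') ∧
  (∀ (x y x' y' : ℝ) (r r' : V) (v v' : W), x' ^ 2 + y' ^ 2 = 1 → Φ.Pair r r' → Ψ.Pair v v' →
    0 ≤ T.gS f x y x' y' r r' v v') ∧
  (∀ (x : ℝ) (q : Fin (e + 1)) (r r' : V) (v v' : W),
    dR Φ q (T.U f x x) r r' v v' + dW Ψ q (T.U f x x) r r' v v' = 0) ∧
  ∀ (x : ℝ) (r r' : V) (v v' : W), T.U f x 0 r r' v v' = T.U f x 0 r r' v 0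

/-- The boundary terms of the main inequality. -/
noncomputable def Bt {V W M : Type} [NormedAddCommGroup V] [InnerProductSpace ℝ V] [CompleteSpace V]
    [NormedAddCommGroup W] [InnerProductSpace ℝ W] [CompleteSpace W]
    [NormedAddCommGroup M] [InnerProductSpace ℝ M] [CompleteSpace M] {m n e : ℕ}
    {Φ : Frm V m e} {Ψ : Frm W n e} (T : Tns Φ Ψ M) (f : M → ℝ) (x y : ℝ → ℝ) (s : ℝ) : ℝ :=
  wq (n - (e + 1) - 1) (e + 1) x y s *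
    (deriv x s / x s * Ev Φ Ψ (fun r r' v v' => pOE (T.U f (x s) (y s)) r r' v v' ^ 2) +
    deriv y s / y s * Ev Φ Ψ (fun r r' v v' => sw (pEO (T.U f (x s) (y s))) r r' v v' ^ 2) +
    deriv y s / y s * Ev Φ Ψ (fun r r' v v' => pOO (T.U f (x s) (y s)) r r' v v' ^ 2) +
    (x s * deriv x s + y s * deriv y s) / (x s ^ 2 + y s ^ 2) * Ev Φ Ψ (fun r r' v v' =>
      (pEE (T.U f (x s) (y s)) r r' v v' - pA Ψ (T.U f (x s) (y s)) r r' v v') ^ 2) +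
    (deriv x s - deriv y s) / (x s - y s) *
      (Ev Φ Ψ (fun r r' v v' => pA Ψ (T.U f (x s) (y s)) r r' v v' ^ 2) -
        Ev Φ Ψ (T.U f (x s) (y s)) ^ 2))

/-- The main inequality on a piece of the curve in the open chamber. -/
def clMain : Prop := ∀ (V W M : Type) [NormedAddCommGroup V] [InnerProductSpace ℝ V]
  [CompleteSpace V] [NormedAddCommGroup W] [InnerProductSpace ℝ W] [CompleteSpace W]
  [NormedAddCommGroup M] [InnerProductSpace ℝ M] [CompleteSpace M] (n e : ℕ)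
  (Φ : Frm V (2 * (e + 1)) e) (Ψ : Frm W n e) (T : Tns Φ Ψ M) (f : M → ℝ) (α β : ℝ)
  (x y : ℝ → ℝ), 2 ≤ n - (e + 1) → ContDiff ℝ 1 f → α < β →
  Crv (n - (e + 1) - 1) (e + 1) α β x y →
  Bt T f x y β - Bt T f x y α +
      ∫ s in α..β, Ev Φ Ψ (T.gT f (x s) (y s) (deriv x s) (deriv y s)) ^ 2 *
        wq (n - (e + 1) - 1) (e + 1) x y s ≤
    ∫ s in α..β, Ev Φ Ψ (T.gS f (x s) (y s) (deriv x s) (deriv y s)) *
      wq (n - (e + 1) - 1) (e + 1) x y s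

/-- The boundary terms at the end on the unit circle. -/
def clBt : Prop := ∀ (V W M : Type) [NormedAddCommGroup V] [InnerProductSpace ℝ V]
  [CompleteSpace V] [NormedAddCommGroup W] [InnerProductSpace ℝ W] [CompleteSpace W]
  [NormedAddCommGroup M] [InnerProductSpace ℝ M] [CompleteSpace M] (m n e : ℕ)
  (Φ : Frm V m e) (Ψ : Frm W n e) (T : Tns Φ Ψ M) (f : M → ℝ) (κ s : ℝ)
  (x y : ℝ → ℝ), ContDiff ℝ 1 f → 0 < y s → y s < x s → x s ^ 2 + y s ^ 2 = 1 →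
  deriv x s = κ * x s → deriv y s = κ * y s →
  Bt T f x y s = κ * (wq (n - (e + 1) - 1) (e + 1) x y s *
    (Ev Φ Ψ (fun r r' v v' => T.U f (x s) (y s) r r' v v' ^ 2) -
      Ev Φ Ψ (T.U f (x s) (y s)) ^ 2))

/-- Curves with two boundary components. -/
def clTwo : Prop := ∀ (V W M : Type) [NormedAddCommGroup V] [InnerProductSpace ℝ V]
  [CompleteSpace V] [NormedAddCommGroup W] [InnerProductSpace ℝ W] [CompleteSpace W]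
  [NormedAddCommGroup M] [InnerProductSpace ℝ M] [CompleteSpace M] (n e : ℕ)
  (Φ : Frm V (2 * (e + 1)) e) (Ψ : Frm W n e) (T : Tns Φ Ψ M) (f : M → ℝ) (L : ℝ)
  (x y : ℝ → ℝ), 2 ≤ n - (e + 1) → ContDiff ℝ 1 f → Chd (n - (e + 1) - 1) (e + 1) L x y →
  Ev Φ Ψ (T.U f (x L) (y L)) * wq (n - (e + 1) - 1) (e + 1) x y L +
    Ev Φ Ψ (T.U f (x 0) (y 0)) * wq (n - (e + 1) - 1) (e + 1) x y 0 = 0 →
  Ev Φ Ψ (fun r r' v v' => T.U f (x L) (y L) r r' v v' ^ 2) * wq (n - (e + 1) - 1) (e + 1) x y L +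
    Ev Φ Ψ (fun r r' v v' => T.U f (x 0) (y 0) r r' v v' ^ 2) *
      wq (n - (e + 1) - 1) (e + 1) x y 0 ≤
    ∫ s in (0 : ℝ)..L, Ev Φ Ψ (T.gS f (x s) (y s) (deriv x s) (deriv y s)) *
      wq (n - (e + 1) - 1) (e + 1) x y s

/-- Limits of the boundary terms at the walls. -/
def clLim : Prop := ∀ (V W M : Type) [NormedAddCommGroup V] [InnerProductSpace ℝ V]
  [CompleteSpace V] [NormedAddCommGroup W] [InnerProductSpace ℝ W] [CompleteSpace W]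
  [NormedAddCommGroup M] [InnerProductSpace ℝ M] [CompleteSpace M] (n e : ℕ)
  (Φ : Frm V (2 * (e + 1)) e) (Ψ : Frm W n e) (T : Tns Φ Ψ M) (f : M → ℝ)
  (x y : ℝ → ℝ), 2 ≤ n - (e + 1) → ContDiff ℝ 1 f → ContDiff ℝ 2 x → ContDiff ℝ 2 y →
  (∀ᶠ s in 𝓝[>] (0 : ℝ), 0 < y s ∧ y s < x s) → 0 < x 0 → (y 0 = 0 ∨ y 0 = x 0) →
  Tendsto (Bt T f x y) (𝓝[>] 0) (𝓝 0)

/-- Curves with one boundary component. -/
def clOne : Prop := ∀ (V W M : Type) [NormedAddCommGroup V] [InnerProductSpace ℝ V]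
  [CompleteSpace V] [NormedAddCommGroup W] [InnerProductSpace ℝ W] [CompleteSpace W]
  [NormedAddCommGroup M] [InnerProductSpace ℝ M] [CompleteSpace M] (n e : ℕ)
  (Φ : Frm V (2 * (e + 1)) e) (Ψ : Frm W n e) (T : Tns Φ Ψ M) (f : M → ℝ) (L : ℝ)
  (x y : ℝ → ℝ), 2 ≤ n - (e + 1) → ContDiff ℝ 1 f → 0 < L → ContDiff ℝ 2 x → ContDiff ℝ 2 y →
  (∀ α ∈ Ioo 0 L, Crv (n - (e + 1) - 1) (e + 1) α L x y) →
  x L ^ 2 + y L ^ 2 = 1 → deriv x L = x L → deriv y L = y L → 0 < x 0 →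
  (y 0 = 0 ∨ y 0 = x 0) → Ev Φ Ψ (T.U f (x L) (y L)) = 0 →
  Ev Φ Ψ (fun r r' v v' => T.U f (x L) (y L) r r' v v' ^ 2) *
      wq (n - (e + 1) - 1) (e + 1) x y L ≤
    ∫ s in (0 : ℝ)..L, Ev Φ Ψ (T.gS f (x s) (y s) (deriv x s) (deriv y s)) *
      wq (n - (e + 1) - 1) (e + 1) x y s

/-- Moments of a linear function. -/
def clMom : Prop := ∀ (V W M : Type) [NormedAddCommGroup V] [InnerProductSpace ℝ V]
  [CompleteSpace V] [NormedAddCommGroup W] [InnerProductSpace ℝ W] [CompleteSpace W]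
  [NormedAddCommGroup M] [InnerProductSpace ℝ M] [CompleteSpace M] (m n e : ℕ)
  (Φ : Frm V m e) (Ψ : Frm W n e) (T : Tns Φ Ψ M) (X₀ : M) (x y : ℝ),
  Ev Φ Ψ (fun r r' v v' => inner ℝ X₀ (T.X x y r r' v v')) = 0 ∧
  Ev Φ Ψ (fun r r' v v' => (inner ℝ X₀ (T.X x y r r' v v')) ^ 2) =
    (x ^ 2 + y ^ 2) / (2 * n) * ‖X₀‖ ^ 2

/-- Identities for the profile curves: the volume. -/
def clVol : Prop := ∀ (a b : ℕ) (P : Profile a b), 1 ≤ a → 1 ≤ b →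
  (∀ s, P.w s = wq a b P.x P.y s) ∧
  (∀ α ∈ Ioo 0 P.L, Crv a b α P.L P.x P.y) ∧
  (0 < P.y 0 → P.y 0 < P.x 0 → Chd a b P.L P.x P.y) ∧
  (P.y 0 = 0 ∨ P.y 0 = P.x 0 → P.w 0 = 0) ∧ 0 < P.w P.L ∧ 0 ≤ P.w 0 ∧
  (2 * (a : ℝ) + 2 * b + 1) * ∫ s in (0 : ℝ)..P.L, P.w s = P.w P.L + P.w 0

/-- The theorem for abstract tensors: the inequality. -/
def clThm : Prop := ∀ (V W M : Type) [NormedAddCommGroup V] [InnerProductSpace ℝ V]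
  [CompleteSpace V] [NormedAddCommGroup W] [InnerProductSpace ℝ W] [CompleteSpace W]
  [NormedAddCommGroup M] [InnerProductSpace ℝ M] [CompleteSpace M] (n e : ℕ)
  (Φ : Frm V (2 * (e + 1)) e) (Ψ : Frm W n e) (T : Tns Φ Ψ M) (a b : ℕ)
  (P : Profile a b), 1 ≤ a → a + 1 = n - (e + 1) → b = e + 1 →
  ∀ f : M → ℝ, ContDiff ℝ 1 f →
    Ev Φ Ψ (T.U f (P.x P.L) (P.y P.L)) * P.w P.L + Ev Φ Ψ (T.U f (P.x 0) (P.y 0)) * P.w 0 = 0 →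
    Ev Φ Ψ (fun r r' v v' => T.U f (P.x P.L) (P.y P.L) r r' v v' ^ 2) * P.w P.L +
      Ev Φ Ψ (fun r r' v v' => T.U f (P.x 0) (P.y 0) r r' v v' ^ 2) * P.w 0 ≤
    ∫ s in (0 : ℝ)..P.L,
      Ev Φ Ψ (T.gS f (P.x s) (P.y s) (deriv P.x s) (deriv P.y s)) * P.w s

/-- The theorem for abstract tensors: the linear functions. -/
def clLin : Prop := ∀ (V W M : Type) [NormedAddCommGroup V] [InnerProductSpace ℝ V]
  [CompleteSpace V] [NormedAddCommGroup W] [InnerProductSpace ℝ W] [CompleteSpace W]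
  [NormedAddCommGroup M] [InnerProductSpace ℝ M] [CompleteSpace M] (m n e : ℕ)
  (Φ : Frm V m e) (Ψ : Frm W n e) (T : Tns Φ Ψ M) (a b : ℕ)
  (P : Profile a b), 1 ≤ a → a + 1 = n - (e + 1) → b = e + 1 →
  ∀ X₀ : M, X₀ ≠ 0 → ∀ f : M → ℝ, (∀ X, f X = inner ℝ X₀ X) →
    Ev Φ Ψ (T.U f (P.x P.L) (P.y P.L)) * P.w P.L + Ev Φ Ψ (T.U f (P.x 0) (P.y 0)) * P.w 0 = 0 ∧
    0 < Ev Φ Ψ (fun r r' v v' => T.U f (P.x P.L) (P.y P.L) r r' v v' ^ 2) * P.w P.L +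
      Ev Φ Ψ (fun r r' v v' => T.U f (P.x 0) (P.y 0) r r' v v' ^ 2) * P.w 0 ∧
    ∫ s in (0 : ℝ)..P.L,
        Ev Φ Ψ (T.gS f (P.x s) (P.y s) (deriv P.x s) (deriv P.y s)) * P.w s =
      Ev Φ Ψ (fun r r' v v' => T.U f (P.x P.L) (P.y P.L) r r' v v' ^ 2) * P.w P.L +
      Ev Φ Ψ (fun r r' v v' => T.U f (P.x 0) (P.y 0) r r' v v' ^ 2) * P.w 0

end Pool.Agent.Work.MP_408f4b_gt.Q
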